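import Pool.Agent.H69.Stab.M10b

/-!
# M10: consequences for bad sequences
-/

set_option autoImplicit false

open MeasureTheory Set Filter Topology
open scoped ContDiff

namespace Pool.Agent.H94.Stab

namespace H69

variable {n : ℕ}

/-- the statement of M5 -/
def Transport (n : ℕ) : Prop := ∀ {Ω : Set (E n)} {f F : ℝ → ℝ} {u : E n → ℝ}, 3 ≤ n →
    Stable Ω f F u → ∀ {g w : ℝ → ℝ}, Bump1 g → ContDiff ℝ 1 w →
    (∀ x : E n, x ≠ 0 → Real.log ‖x‖ ∈ tsupport g → x ∈ Ω) →
    ∫ x, ‖x‖ ^ (1 - (n : ℝ)) * deriv g (Real.log ‖x‖) * w (u x) * gr u x =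
      ∫ x, xnu u x * w (u x) *
        (cc u x * ‖x‖ ^ (-1 - (n : ℝ)) *
            ((1 - (n : ℝ)) * g (Real.log ‖x‖) + deriv g (Real.log ‖x‖))
          - ‖x‖ ^ (1 - (n : ℝ)) * g (Real.log ‖x‖) * ∑ i, ∑ j, nu u i x * Wt f u i j x * nu u j x)

theorem xnu_zero (u : E n → ℝ) : xnu u 0 = 0 := by
  unfold xnu
  simp

theorem smooth1 {u : E n → ℝ} (h : ContDiff ℝ ∞ u) : ContDiff ℝ 1 u :=
  h.of_le (by exact_mod_cast le_top)

theorem continuous_cn {Ω : Set (E n)} {f F : ℝ → ℝ} {u : E n → ℝ} (h : Stable Ω f F u) :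
    Continuous (cn F u) := (contDiff_cE h).continuous.neg.max continuous_const

theorem continuous_Fn {Ω : Set (E n)} {f F : ℝ → ℝ} {u : E n → ℝ} (h : Stable Ω f F u) :
    Continuous (Fn F u) := (continuous_Fu h).neg.max continuous_const

/-- the right side of the transport identity -/
noncomputable def Rhs (f : ℝ → ℝ) (u : E n → ℝ) (g w : ℝ → ℝ) (x : E n) : ℝ :=
  xnu u x * w (u x) *
        (cc u x * ‖x‖ ^ (-1 - (n : ℝ)) *
            ((1 - (n : ℝ)) * g (Real.log ‖x‖) + deriv g (Real.log ‖x‖))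
          - ‖x‖ ^ (1 - (n : ℝ)) * g (Real.log ‖x‖) * ∑ i, ∑ j, nu u i x * Wt f u i j x * nu u j x)

/-- first factor -/
noncomputable def fa (f F : ℝ → ℝ) (u : E n → ℝ) (x : E n) : ℝ :=
  gr u x + Real.sqrt (Wsq f u x) + Real.sqrt (cn F u x)

/-- second factor -/
noncomputable def fb (F : ℝ → ℝ) (u : E n → ℝ) (x : E n) : ℝ :=
  |cc u x| + Real.sqrt (cn F u x)

theorem fa_nonneg (f F : ℝ → ℝ) (u : E n → ℝ) (x : E n) : 0 ≤ fa f F u x :=
  add_nonneg (add_nonneg (gr_nonneg _ _) (Real.sqrt_nonneg _)) (Real.sqrt_nonneg _)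

theorem fb_nonneg (F : ℝ → ℝ) (u : E n → ℝ) (x : E n) : 0 ≤ fb F u x :=
  add_nonneg (abs_nonneg _) (Real.sqrt_nonneg _)

theorem fa_sq_le (f F : ℝ → ℝ) (u : E n → ℝ) (x : E n) :
    fa f F u x ^ 2 ≤ 3 * (gsq u x + Wsq f u x + cn F u x) := by
  have h1 := gr_sq u x
  have h2 := Real.sq_sqrt (Wsq_nonneg f u x)
  have h3 := Real.sq_sqrt (cn_nonneg F u x)
  unfold fa
  nlinarith [sq_nonneg (gr u x - Real.sqrt (Wsq f u x)), sq_nonneg (gr u x - Real.sqrt (cn F u x)),
    sq_nonneg (Real.sqrt (Wsq f u x) - Real.sqrt (cn F u x))]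

theorem fb_sq_le (F : ℝ → ℝ) (u : E n → ℝ) (x : E n) :
    fb F u x ^ 2 ≤ 2 * (cc u x ^ 2 + cn F u x) := by
  have h1 := sq_abs (cc u x)
  have h3 := Real.sq_sqrt (cn_nonneg F u x)
  unfold fb
  nlinarith [sq_nonneg (|cc u x| - Real.sqrt (cn F u x))]

theorem integrableOn_fa {Ω : Set (E n)} {f F : ℝ → ℝ} {u : E n → ℝ} (h : Stable Ω f F u)
    {K : Set (E n)} (hK : IsCompact K) : IntegrableOn (fun x => fa f F u x ^ 2) K := by
  have i1 : IntegrableOn (gsq u) K :=
    (continuous_gsq (smooth1 h.smooth)).continuousOn.integrableOn_compact hK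
  have i2 : IntegrableOn (Wsq f u) K := integrableOn_Wsq h hK
  have i3 : IntegrableOn (cn F u) K := (continuous_cn h).continuousOn.integrableOn_compact hK
  refine Integrable.mono' (((i1.add i2).add i3).const_mul 3) ?_
    (Eventually.of_forall fun x => ?_)
  · unfold fa
    exact ((((continuous_gr (smooth1 h.smooth)).measurable.add
      ((measurable_Wsq h).sqrt)).add ((continuous_cn h).measurable.sqrt)).pow_const
        2).aestronglyMeasurable
  · rw [Real.norm_eq_abs, abs_of_nonneg (sq_nonneg _)]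
    exact fa_sq_le f F u x

theorem integrableOn_fb {Ω : Set (E n)} {f F : ℝ → ℝ} {u : E n → ℝ} (h : Stable Ω f F u)
    {K : Set (E n)} (hK : IsCompact K) : IntegrableOn (fun x => fb F u x ^ 2) K := by
  have : Continuous fun x => fb F u x ^ 2 := by
    unfold fb
    exact ((contDiff_cc h.smooth).continuous.abs.add
      (Real.continuous_sqrt.comp (continuous_cn h))).pow 2
  exact this.continuousOn.integrableOn_compact hK

/-- bound for the right side -/
theorem Rhs_le {f F : ℝ → ℝ} {u : E n → ℝ} {g w : ℝ → ℝ} {p q M : ℝ}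
    (hM : 0 ≤ M)
    (h1 : ∀ x ∈ AA n (Real.exp p) (Real.exp q), |‖x‖ ^ (-1 - (n : ℝ)) *
      ((1 - (n : ℝ)) * g (Real.log ‖x‖) + deriv g (Real.log ‖x‖))| ≤ M)
    (h2 : ∀ x ∈ AA n (Real.exp p) (Real.exp q), |‖x‖ ^ (1 - (n : ℝ)) * g (Real.log ‖x‖)| ≤ M)
    (hw0 : ∀ x, 0 ≤ w (u x)) (hw : ∀ x, w (u x) ≤ Real.sqrt (Fn F u x)) {x : E n}
    (hx : x ∈ AA n (Real.exp p) (Real.exp q)) :
    |Rhs f u g w x| ≤ M * (1 + Real.exp q) * (fa f F u x * fb F u x) := by
  set B := Real.exp q with hB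
  have hB0 : 0 < B := Real.exp_pos q
  set c := |cc u x| with hc
  set σ := Real.sqrt (Wsq f u x) with hσ
  set τ := Real.sqrt (cn F u x) with hτ
  have hc0 : 0 ≤ c := abs_nonneg _
  have hσ0 : 0 ≤ σ := Real.sqrt_nonneg _
  have hτ0 : 0 ≤ τ := Real.sqrt_nonneg _
  have hG0 : 0 ≤ gr u x := gr_nonneg _ _
  have hx1 : |xnu u x| ≤ B := (abs_xnu_le u x).trans hx.2
  have hx0 : 0 ≤ |xnu u x| := abs_nonneg _
  have hxg : |xnu u x| * gr u x = c := by
    rw [hc, ← gr_mul_xnu, abs_mul, abs_of_nonneg hG0, mul_comm]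
  have hwx : w (u x) ≤ gr u x + τ := (hw x).trans (sqrt_Fn_le F u x)
  have hw1 : |w (u x)| = w (u x) := abs_of_nonneg (hw0 x)
  -- the two terms
  have e1 : |Rhs f u g w x| ≤ |xnu u x| * w (u x) * (c * M + M * σ) := by
    unfold Rhs
    rw [abs_mul, abs_mul, hw1]
    refine mul_le_mul_of_nonneg_left ?_ (mul_nonneg hx0 (hw0 x))
    refine (abs_sub _ _).trans (add_le_add ?_ ?_)
    · rw [mul_assoc, abs_mul]
      exact mul_le_mul_of_nonneg_left (h1 x hx) hc0
    · rw [abs_mul]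
      exact mul_le_mul (h2 x hx) (abs_nWn_le f u x) (abs_nonneg _) hM
  refine e1.trans ?_
  have e2 : |xnu u x| * w (u x) * (c * M + M * σ) =
      M * (|xnu u x| * w (u x) * c + |xnu u x| * w (u x) * σ) := by ring
  have e3 : |xnu u x| * w (u x) ≤ c + B * τ := by
    calc |xnu u x| * w (u x) ≤ |xnu u x| * (gr u x + τ) := mul_le_mul_of_nonneg_left hwx hx0
      _ = c + |xnu u x| * τ := by rw [mul_add, hxg]
      _ ≤ c + B * τ := by linarith [mul_le_mul_of_nonneg_right hx1 hτ0]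
  have e4 : |xnu u x| * w (u x) ≤ B * (gr u x + τ) :=
    mul_le_mul hx1 hwx (hw0 x) hB0.le
  have e5 : |xnu u x| * w (u x) * c + |xnu u x| * w (u x) * σ ≤
      (1 + B) * (fa f F u x * fb F u x) := by
    have h3 : |xnu u x| * w (u x) * c ≤ B * (gr u x + τ) * c := mul_le_mul_of_nonneg_right e4 hc0
    have h4 : |xnu u x| * w (u x) * σ ≤ (c + B * τ) * σ := mul_le_mul_of_nonneg_right e3 hσ0
    have h5 : fa f F u x * fb F u x = (gr u x + σ + τ) * (c + τ) := rfl
    rw [h5]
    have p1 := mul_nonneg hG0 hc0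
    have p2 := mul_nonneg hτ0 hc0
    have p3 := mul_nonneg hσ0 hc0
    have p4 := mul_nonneg hσ0 hτ0
    have p5 := mul_nonneg hG0 hτ0
    have p6 := mul_nonneg hτ0 hτ0
    have q1 := mul_nonneg hB0.le p1
    have q2 := mul_nonneg hB0.le p2
    have q3 := mul_nonneg hB0.le p3
    have q4 := mul_nonneg hB0.le p4
    have q5 := mul_nonneg hB0.le p5
    have q6 := mul_nonneg hB0.le p6
    nlinarith
  rw [e2]
  calc M * (|xnu u x| * w (u x) * c + |xnu u x| * w (u x) * σ)
      ≤ M * ((1 + B) * (fa f F u x * fb F u x)) := mul_le_mul_of_nonneg_left e5 hM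
    _ = M * (1 + B) * (fa f F u x * fb F u x) := by ring

section Seq

variable {u : ℕ → E n → ℝ} {f F : ℕ → ℝ → ℝ}

/-- the hypotheses from M9 -/
structure M9H (u : ℕ → E n → ℝ) (f F : ℕ → ℝ → ℝ) : Prop where
  en : ∀ {K : Set (E n)}, IsCompact K → (0 : E n) ∉ K →
      ∃ C : ℝ, ∀ᶠ k in atTop, ∫ x in K, gsq (u k) x ≤ C
  W : ∀ {K : Set (E n)}, IsCompact K → (0 : E n) ∉ K →
      ∃ C : ℝ, ∀ᶠ k in atTop, ∫ x in K, Wsq (f k) (u k) x ≤ C
  c : ∀ {K : Set (E n)}, IsCompact K → (0 : E n) ∉ K →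
      Tendsto (fun k => ∫ x in K, (cc (u k) x) ^ 2) atTop (𝓝 0)

theorem tendsto_cn (h : BadSeq u f F) (hN : Normed u F) (h9 : M9H u f F)
    {K : Set (E n)} (hK : IsCompact K) (h0 : (0 : E n) ∉ K) :
    Tendsto (fun k => ∫ x in K, cn (F k) (u k) x) atTop (𝓝 0) :=
  b_cEneg' h hN h9.en h9.W hK h0

theorem tendsto_fab (h : BadSeq u f F) (hN : Normed u F) (h9 : M9H u f F)
    {K : Set (E n)} (hK : IsCompact K) (h0 : (0 : E n) ∉ K) :
    Tendsto (fun k => ∫ x in K, fa (f k) (F k) (u k) x * fb (F k) (u k) x) atTop (𝓝 0) := by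
  obtain ⟨C1, hC1⟩ := h9.en hK h0
  obtain ⟨C2, hC2⟩ := h9.W hK h0
  have hcn := tendsto_cn h hN h9 hK h0
  have hcn1 : ∀ᶠ k in atTop, ∫ x in K, cn (F k) (u k) x < 1 :=
    hcn.eventually (gt_mem_nhds (by norm_num))
  have icc : ∀ k, IntegrableOn (fun x => cc (u k) x ^ 2) K := fun k =>
    ((contDiff_cc (h.st k).smooth).continuous.pow 2).continuousOn.integrableOn_compact hK
  have icn : ∀ k, IntegrableOn (cn (F k) (u k)) K := fun k =>
    (continuous_cn (h.st k)).continuousOn.integrableOn_compact hK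
  refine tendsto_mul_zero (C := 3 * (C1 + C2 + 1)) (fun k x => fa_nonneg _ _ _ _)
    (fun k x => fb_nonneg _ _ _) (fun k => integrableOn_fa (h.st k) hK)
    (fun k => integrableOn_fb (h.st k) hK) ?_ ?_
  · filter_upwards [hC1, hC2, hcn1] with k k1 k2 k3
    have i1 : IntegrableOn (gsq (u k)) K :=
      (continuous_gsq (smooth1 (h.st k).smooth)).continuousOn.integrableOn_compact hK
    have i2 : IntegrableOn (Wsq (f k) (u k)) K := integrableOn_Wsq (h.st k) hK
    have e1 : ∫ x in K, fa (f k) (F k) (u k) x ^ 2 ≤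
        ∫ x in K, 3 * (gsq (u k) x + Wsq (f k) (u k) x + cn (F k) (u k) x) :=
      setIntegral_mono (integrableOn_fa (h.st k) hK) (((i1.add i2).add (icn k)).const_mul 3)
        fun x => fa_sq_le _ _ _ x
    have e2 : ∫ x in K, 3 * (gsq (u k) x + Wsq (f k) (u k) x + cn (F k) (u k) x) =
        3 * ((∫ x in K, gsq (u k) x) + (∫ x in K, Wsq (f k) (u k) x) +
          ∫ x in K, cn (F k) (u k) x) := by
      have i3 : IntegrableOn (fun x => gsq (u k) x + Wsq (f k) (u k) x) K := i1.add i2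
      rw [integral_const_mul, integral_add i3 (icn k), integral_add i1 i2]
    rw [e2] at e1
    linarith
  · have e1 : ∀ k, ∫ x in K, fb (F k) (u k) x ^ 2 ≤
        2 * ((∫ x in K, cc (u k) x ^ 2) + ∫ x in K, cn (F k) (u k) x) := by
      intro k
      rw [← integral_add (icc k) (icn k), ← integral_const_mul]
      exact setIntegral_mono (integrableOn_fb (h.st k) hK) (((icc k).add (icn k)).const_mul 2)
        fun x => fb_sq_le _ _ x
    have e2 : Tendsto (fun k => 2 * ((∫ x in K, cc (u k) x ^ 2) +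
        ∫ x in K, cn (F k) (u k) x)) atTop (𝓝 0) := by
      have := ((h9.c hK h0).add hcn).const_mul 2
      simpa using this
    exact squeeze_zero (fun k => integral_nonneg fun x => sq_nonneg _) e1 e2

/-- the right side of the transport identity tends to zero -/
theorem tendsto_Rhs (h : BadSeq u f F) (hN : Normed u F) (h9 : M9H u f F)
    {g : ℝ → ℝ} (hg : Bump1 g) {p q : ℝ} (hg0 : ∀ t, t ∉ Icc p q → g t = 0)
    (hg1 : ∀ t, t ∉ Icc p q → deriv g t = 0) {w : ℕ → ℝ → ℝ}
    (hw0 : ∀ k x, 0 ≤ w k (u k x)) (hw : ∀ k x, w k (u k x) ≤ Real.sqrt (Fn (F k) (u k) x)) :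
    Tendsto (fun k => ∫ x, Rhs (f k) (u k) g (w k) x) atTop (𝓝 0) := by
  have hK := AA_compact (n := n) (Real.exp p) (Real.exp q)
  have h0 := AA_zero (n := n) (b := Real.exp q) (Real.exp_pos p)
  have hgc : Continuous g := hg.1.continuous
  have hgd : Continuous (deriv g) := hg.1.continuous_deriv (by simp)
  obtain ⟨M1, hM1, hb1⟩ := rad_bound (n := n) (s := -1 - (n : ℝ)) (p := p) (q := q)
    (ψ := fun t => (1 - (n : ℝ)) * g t + deriv g t) ((continuous_const.mul hgc).add hgd)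
  obtain ⟨M2, hM2, hb2⟩ := rad_bound (n := n) (s := 1 - (n : ℝ)) (p := p) (q := q) (ψ := g) hgc
  set M := max M1 M2 with hM
  have hM0 : 0 ≤ M := hM1.le.trans (le_max_left _ _)
  have hfab := tendsto_fab h hN h9 hK h0
  have hlim : Tendsto (fun k => M * (1 + Real.exp q) * ∫ x in AA n (Real.exp p) (Real.exp q),
      fa (f k) (F k) (u k) x * fb (F k) (u k) x) atTop (𝓝 0) := by
    have := hfab.const_mul (M * (1 + Real.exp q))
    simpa using this
  refine squeeze_zero_norm (fun k => ?_) hlim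
  have hout : ∀ x, x ∉ AA n (Real.exp p) (Real.exp q) → Rhs (f k) (u k) g (w k) x = 0 := by
    intro x hx
    unfold Rhs
    by_cases hx0 : x = 0
    · rw [hx0, xnu_zero]; simp
    · have hpos : 0 < ‖x‖ := norm_pos_iff.2 hx0
      have h3 : Real.log ‖x‖ ∉ Icc p q := by
        rintro ⟨h4, h5⟩
        rw [Real.le_log_iff_exp_le hpos] at h4
        rw [Real.log_le_iff_le_exp hpos] at h5
        exact hx ⟨h4, h5⟩
      rw [hg0 _ h3, hg1 _ h3]
      simp
  have hset : ∫ x, Rhs (f k) (u k) g (w k) x =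
      ∫ x in AA n (Real.exp p) (Real.exp q), Rhs (f k) (u k) g (w k) x :=
    (setIntegral_eq_integral_of_forall_compl_eq_zero hout).symm
  rw [hset, ← integral_const_mul]
  have hst := h.st k
  have hfint : IntegrableOn (fun x => fa (f k) (F k) (u k) x * fb (F k) (u k) x)
      (AA n (Real.exp p) (Real.exp q)) := by
    refine Integrable.mono' (((integrableOn_fa hst hK).add (integrableOn_fb hst hK)).div_const 2) ?_
      (Eventually.of_forall fun x => ?_)
    · unfold fa fb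
      exact ((((continuous_gr (smooth1 hst.smooth)).measurable.add
        ((measurable_Wsq hst).sqrt)).add ((continuous_cn hst).measurable.sqrt)).mul
        ((contDiff_cc hst.smooth).continuous.abs.add
          (Real.continuous_sqrt.comp (continuous_cn hst))).measurable).aestronglyMeasurable
    · rw [Real.norm_eq_abs, abs_of_nonneg (mul_nonneg (fa_nonneg _ _ _ _) (fb_nonneg _ _ _))]
      show _ ≤ (fa (f k) (F k) (u k) x ^ 2 + fb (F k) (u k) x ^ 2) / 2
      nlinarith [sq_nonneg (fa (f k) (F k) (u k) x - fb (F k) (u k) x)]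
  refine norm_integral_le_of_norm_le (hfint.const_mul (M * (1 + Real.exp q))) ?_
  refine (ae_restrict_iff' hK.measurableSet).2 (Eventually.of_forall fun x hx => ?_)
  rw [Real.norm_eq_abs]
  exact Rhs_le hM0 (fun y hy => (hb1 y hy).trans (le_max_left _ _))
    (fun y hy => (hb2 y hy).trans (le_max_right _ _)) (hw0 k) (hw k) hx

/-- the weighted perimeters -/
noncomputable def AI (u : E n → ℝ) (w ψ : ℝ → ℝ) : ℝ :=
  ∫ x : E n, ‖x‖ ^ (1 - (n : ℝ)) * ψ (Real.log ‖x‖) * (w (u x) * gr u x)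

theorem tendsto_AI (hn : 3 ≤ n) (hT : Transport n) (h : BadSeq u f F) (hN : Normed u F)
    (h9 : M9H u f F) {ψ : ℝ → ℝ} (hψ : Bump1 ψ) (hψ0 : ∀ t, 0 ≤ ψ t) {p q : ℝ}
    (hψs : ∀ t, t ∉ Icc p q → ψ t = 0) {w : ℕ → ℝ → ℝ} (hwC : ∀ k, ContDiff ℝ 1 (w k))
    (hw0 : ∀ k x, 0 ≤ w k (u k x)) (hw : ∀ k x, w k (u k x) ≤ Real.sqrt (Fn (F k) (u k) x)) :
    Tendsto (fun k => AI (u k) (w k) ψ) atTop (𝓝 0) := by
  have hn3 : (3 : ℝ) ≤ n := by exact_mod_cast hn
  have hs1 : (1 - (n : ℝ)) ≠ 0 := by intro h; linarith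
  have hs2 : (2 - (n : ℝ)) ≠ 0 := by intro h; linarith
  have hψc := hψ.1.continuous
  have hwgr : ∀ k, Continuous fun x => w k (u k x) * gr (u k) x := fun k =>
    ((hwC k).continuous.comp (h.st k).continuous).mul (continuous_gr (smooth1 (h.st k).smooth))
  have hAI0 : ∀ k, 0 ≤ AI (u k) (w k) ψ := fun k => integral_nonneg fun x =>
    mul_nonneg (mul_nonneg (Real.rpow_nonneg (norm_nonneg _) _) (hψ0 _))
      (mul_nonneg (hw0 k x) (gr_nonneg _ _))
  rw [Metric.tendsto_atTop']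
  intro ε hε
  set I0 : ℝ := ∫ t, ψ t with hI0
  have hI00 : 0 ≤ I0 := integral_nonneg hψ0
  -- choice of `J`
  obtain ⟨J, hJ0, hJ⟩ : ∃ J : ℝ, 0 ≤ J ∧ Real.exp (-(p + J)) * (I0 + 2) < ε / 2 := by
    have h1 : Tendsto (fun J : ℝ => Real.exp (-(p + J)) * (I0 + 2)) atTop (𝓝 0) := by
      have h2 : Tendsto (fun J : ℝ => Real.exp (-(p + J))) atTop (𝓝 0) :=
        Real.tendsto_exp_neg_atTop_nhds_zero.comp (tendsto_atTop_add_const_left _ _ tendsto_id)
      have := h2.mul_const (I0 + 2)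
      simpa using this
    obtain ⟨J, hJ1, hJ2⟩ := ((h1.eventually (gt_mem_nhds (show (0 : ℝ) < ε / 2 by linarith))).and
      (eventually_ge_atTop (0 : ℝ))).exists
    exact ⟨J, hJ2, hJ1⟩
  set g := gJ ψ J with hg
  have hgB : Bump1 g := gJ_bump hψ hJ0 hψs
  have hg0 : ∀ t, t ∉ Icc p (q + J) → g t = 0 := fun t ht => gJ_zero hψc hJ0 hψs ht
  have hψJ : ∀ t, t ∉ Icc (p + J) (q + J) → ψ (t - J) = 0 := by
    intro t ht
    refine hψs _ fun h' => ht ⟨by linarith [h'.1], by linarith [h'.2]⟩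
  have hgd : deriv g = fun t => ψ t - ψ (t - J) := gJ_deriv hψc J
  have hg1 : ∀ t, t ∉ Icc p (q + J) → deriv g t = 0 := by
    intro t ht
    rw [hgd]
    beta_reduce
    rw [hψs t, hψJ t, sub_zero]
    · exact fun h' => ht ⟨by linarith [h'.1], h'.2⟩
    · exact fun h' => ht ⟨h'.1, by linarith [h'.2]⟩
  have hR := tendsto_Rhs h hN h9 hgB hg0 hg1 hw0 hw
  -- the domain condition
  have hdom : ∀ᶠ k : ℕ in atTop, ∀ x : E n, x ≠ 0 → Real.log ‖x‖ ∈ tsupport g → x ∈ Ann n k := by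
    have h1 := AA_sub_Ann (n := n) (b := Real.exp (q + J)) (Real.exp_pos p)
    filter_upwards [h1] with k hk x hx hxs
    have h2 : tsupport g ⊆ Icc p (q + J) :=
      closure_minimal (fun t ht => by
        by_contra hcon
        exact ht (hg0 t hcon)) isClosed_Icc
    obtain ⟨h3, h4⟩ := h2 hxs
    have hpos : 0 < ‖x‖ := norm_pos_iff.2 hx
    rw [Real.le_log_iff_exp_le hpos] at h3
    rw [Real.log_le_iff_le_exp hpos] at h4
    exact hk ⟨h3, h4⟩
  -- the translated weight
  have hψJb : Bump1 (fun t => ψ (t - J)) := by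
    refine ⟨hψ.1.comp (contDiff_id.sub contDiff_const),
      HasCompactSupport.intro (isCompact_Icc (a := p + J) (b := q + J)) hψJ⟩
  have hψJc := hψJb.1.continuous
  have hD := h.D1 _ hψJb
  have hI : ∫ t, ψ (t - J) = I0 := integral_sub_right_eq_self ψ J
  rw [hI] at hD
  have hD1 : ∀ᶠ k in atTop, DD (u k) (fun t => ψ (t - J)) < I0 + 1 :=
    hD.eventually (gt_mem_nhds (by linarith))
  have hKc := AA_compact (n := n) (Real.exp (p + J)) (Real.exp (q + J))
  have hK0 := AA_zero (n := n) (b := Real.exp (q + J)) (Real.exp_pos (p + J))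
  obtain ⟨M, hM0, hM⟩ := rad_bound (n := n) (s := 2 - (n : ℝ)) (p := p + J) (q := q + J) hψJc
  have hcn : ∀ᶠ k in atTop, ∫ x in AA n (Real.exp (p + J)) (Real.exp (q + J)),
      cn (F k) (u k) x < M⁻¹ :=
    (tendsto_cn h hN h9 hKc hK0).eventually (gt_mem_nhds (by positivity))
  have hR1 : ∀ᶠ k in atTop, |∫ x, Rhs (f k) (u k) g (w k) x| < ε / 2 := by
    have := hR.eventually (Metric.ball_mem_nhds (0 : ℝ) (show (0 : ℝ) < ε / 2 by linarith))
    filter_upwards [this] with k hk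
    rw [Real.dist_eq, sub_zero] at hk
    exact hk
  obtain ⟨k0, hk0⟩ := eventually_atTop.1 (hdom.and (hD1.and (hcn.and hR1)))
  refine ⟨k0, fun k hk => ?_⟩
  obtain ⟨k1, k2, k3, k4⟩ := hk0 k hk.le
  have hst := h.st k
  have htr := hT hn hst hgB (hwC k) k1
  -- left side
  have i1 := rad_integrable (n := n) hs1 hψc hψs (hwgr k)
  have i2 := rad_integrable (n := n) hs1 hψJc hψJ (hwgr k)
  have hL : ∫ x, ‖x‖ ^ (1 - (n : ℝ)) * deriv g (Real.log ‖x‖) * w k (u k x) * gr (u k) x =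
      AI (u k) (w k) ψ - AI (u k) (w k) (fun t => ψ (t - J)) := by
    unfold AI
    rw [← integral_sub i1 i2]
    congr 1
    ext x
    rw [hgd]
    ring
  rw [hL] at htr
  have htr' : AI (u k) (w k) ψ = AI (u k) (w k) (fun t => ψ (t - J)) +
      ∫ x, Rhs (f k) (u k) g (w k) x := by
    have : ∫ x, Rhs (f k) (u k) g (w k) x = AI (u k) (w k) ψ - AI (u k) (w k)
        (fun t => ψ (t - J)) := htr.symm
    rw [this]; ring
  -- the translated integral
  have hgsqc : Continuous (gsq (u k)) := continuous_gsq (smooth1 hst.smooth)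
  have hcnc := continuous_cn hst
  have i3 := rad_integrable (n := n) hs2 hψJc hψJ hgsqc
  have i4 := rad_integrable (n := n) hs2 hψJc hψJ hcnc
  have hB : AI (u k) (w k) (fun t => ψ (t - J)) ≤ Real.exp (-(p + J)) *
      (DD (u k) (fun t => ψ (t - J)) + 1) := by
    have e1 : AI (u k) (w k) (fun t => ψ (t - J)) ≤ ∫ x, Real.exp (-(p + J)) *
        (‖x‖ ^ (2 - (n : ℝ)) * ψ (Real.log ‖x‖ - J) * gsq (u k) x +
          ‖x‖ ^ (2 - (n : ℝ)) * ψ (Real.log ‖x‖ - J) * cn (F k) (u k) x) := by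
      refine integral_mono i2 ((i3.add i4).const_mul _) fun x => ?_
      show ‖x‖ ^ (1 - (n : ℝ)) * ψ (Real.log ‖x‖ - J) * (w k (u k x) * gr (u k) x) ≤
        Real.exp (-(p + J)) * (‖x‖ ^ (2 - (n : ℝ)) * ψ (Real.log ‖x‖ - J) * gsq (u k) x +
          ‖x‖ ^ (2 - (n : ℝ)) * ψ (Real.log ‖x‖ - J) * cn (F k) (u k) x)
      by_cases hx : x ∈ AA n (Real.exp (p + J)) (Real.exp (q + J))
      · have hpos : 0 < ‖x‖ := (Real.exp_pos _).trans_le hx.1
        have h1 : ‖x‖ ^ (1 - (n : ℝ)) ≤ Real.exp (-(p + J)) * ‖x‖ ^ (2 - (n : ℝ)) := by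
          have h2 : ‖x‖ ^ (1 - (n : ℝ)) = ‖x‖⁻¹ * ‖x‖ ^ (2 - (n : ℝ)) := by
            rw [show (1 - (n : ℝ)) = -1 + (2 - (n : ℝ)) by ring, Real.rpow_add hpos,
              Real.rpow_neg_one]
          rw [h2]
          refine mul_le_mul_of_nonneg_right ?_ (Real.rpow_nonneg hpos.le _)
          rw [Real.exp_neg]
          exact inv_anti₀ (Real.exp_pos _) hx.1
        have h3 : w k (u k x) * gr (u k) x ≤ gsq (u k) x + cn (F k) (u k) x := by
          have h4 := hw k x
          have h5 := Real.sq_sqrt (Fn_nonneg (F k) (u k) x)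
          have h6 := Fn_le (F k) (u k) x
          have h7 := gr_sq (u k) x
          have h8 := hw0 k x
          have h9 : w k (u k x) ^ 2 ≤ Fn (F k) (u k) x := by
            rw [← h5]; exact pow_le_pow_left₀ h8 h4 2
          nlinarith [sq_nonneg (w k (u k x) - gr (u k) x), cn_nonneg (F k) (u k) x,
            gsq_nonneg (u k) x]
        have h10 := hψ0 (Real.log ‖x‖ - J)
        have h11 : 0 ≤ w k (u k x) * gr (u k) x := mul_nonneg (hw0 k x) (gr_nonneg _ _)
        have h12 : 0 ≤ ‖x‖ ^ (2 - (n : ℝ)) := Real.rpow_nonneg hpos.le _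
        calc ‖x‖ ^ (1 - (n : ℝ)) * ψ (Real.log ‖x‖ - J) * (w k (u k x) * gr (u k) x)
            ≤ (Real.exp (-(p + J)) * ‖x‖ ^ (2 - (n : ℝ))) * ψ (Real.log ‖x‖ - J) *
              (gsq (u k) x + cn (F k) (u k) x) := by
              refine mul_le_mul (mul_le_mul_of_nonneg_right h1 h10) h3 h11 ?_
              positivity
          _ = _ := by ring
      · have e1 := rad_zero (n := n) hs1 hψJ hx
        have e2 := rad_zero (n := n) hs2 hψJ hx
        beta_reduce at e1 e2
        rw [e1, e2]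
        simp
    rw [integral_const_mul, integral_add i3 i4] at e1
    have e2 : ∫ x : E n, ‖x‖ ^ (2 - (n : ℝ)) * ψ (Real.log ‖x‖ - J) * gsq (u k) x =
        DD (u k) (fun t => ψ (t - J)) := by
      unfold DD
      congr 1
      ext x
      ring
    have e3 : ∫ x : E n, ‖x‖ ^ (2 - (n : ℝ)) * ψ (Real.log ‖x‖ - J) * cn (F k) (u k) x ≤ 1 := by
      have e4 : ∫ x : E n, ‖x‖ ^ (2 - (n : ℝ)) * ψ (Real.log ‖x‖ - J) * cn (F k) (u k) x =
          ∫ x in AA n (Real.exp (p + J)) (Real.exp (q + J)),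
            ‖x‖ ^ (2 - (n : ℝ)) * ψ (Real.log ‖x‖ - J) * cn (F k) (u k) x := by
        refine (setIntegral_eq_integral_of_forall_compl_eq_zero fun x hx => ?_).symm
        have e2 := rad_zero (n := n) hs2 hψJ hx
        beta_reduce at e2
        rw [e2, zero_mul]
      rw [e4]
      have e5 : ∫ x in AA n (Real.exp (p + J)) (Real.exp (q + J)),
            ‖x‖ ^ (2 - (n : ℝ)) * ψ (Real.log ‖x‖ - J) * cn (F k) (u k) x ≤
          ∫ x in AA n (Real.exp (p + J)) (Real.exp (q + J)), M * cn (F k) (u k) x := by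
        refine setIntegral_mono_on i4.integrableOn
          ((hcnc.continuousOn.integrableOn_compact hKc).const_mul M) hKc.measurableSet
          fun x hx => ?_
        exact mul_le_mul_of_nonneg_right ((le_abs_self _).trans (hM x hx)) (cn_nonneg _ _ _)
      refine e5.trans ?_
      rw [integral_const_mul]
      have := mul_le_mul_of_nonneg_left k3.le hM0.le
      rwa [mul_inv_cancel₀ hM0.ne'] at this
    have e6 : 0 ≤ Real.exp (-(p + J)) := (Real.exp_pos _).le
    refine e1.trans ?_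
    rw [← e2]
    exact mul_le_mul_of_nonneg_left (by linarith) e6
  have hB2 : Real.exp (-(p + J)) * (DD (u k) (fun t => ψ (t - J)) + 1) ≤
      Real.exp (-(p + J)) * (I0 + 2) :=
    mul_le_mul_of_nonneg_left (by linarith) (Real.exp_pos _).le
  rw [Real.dist_eq, sub_zero, abs_of_nonneg (hAI0 k), htr']
  have := le_abs_self (∫ x, Rhs (f k) (u k) g (w k) x)
  linarith

/-- negative part of `F` -/
theorem tendsto_Fn (hn : 3 ≤ n) (hT : Transport n) (h : BadSeq u f F) (hN : Normed u F)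
    (h9 : M9H u f F) {K : Set (E n)} (hK : IsCompact K) (h0 : (0 : E n) ∉ K) :
    Tendsto (fun k => ∫ x in K, Fn (F k) (u k) x) atTop (𝓝 0) := by
  obtain ⟨a, b, ha, hab, hKAA⟩ := exists_AA hK h0
  obtain ⟨ψ, hψ, hψ0, hψ1, hψs⟩ := exists_bump (p := Real.log a) (q := Real.log b)
    (Real.log_lt_log ha hab)
  obtain ⟨C1, hC1⟩ := h9.en hK h0
  have hcn := tendsto_cn h hN h9 hK h0
  have hgsqi : ∀ k, IntegrableOn (gsq (u k)) K := fun k =>
    (continuous_gsq (smooth1 (h.st k).smooth)).continuousOn.integrableOn_compact hK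
  have hcni : ∀ k, IntegrableOn (cn (F k) (u k)) K := fun k =>
    (continuous_cn (h.st k)).continuousOn.integrableOn_compact hK
  have hFgc : ∀ k, Continuous fun x => Real.sqrt (Fn (F k) (u k) x) * gr (u k) x := fun k =>
    (Real.continuous_sqrt.comp (continuous_Fn (h.st k))).mul (continuous_gr
      (smooth1 (h.st k).smooth))
  have hFgi : ∀ k, IntegrableOn (fun x => Real.sqrt (Fn (F k) (u k) x) * gr (u k) x) K := fun k =>
    (hFgc k).continuousOn.integrableOn_compact hK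
  -- lower bound of the weight on `K`
  obtain ⟨m, hm0, hm⟩ : ∃ m : ℝ, 0 < m ∧ ∀ x ∈ AA n a b, m ≤ ‖x‖ ^ (1 - (n : ℝ)) := by
    refine ⟨b ^ (1 - (n : ℝ)), Real.rpow_pos_of_pos (ha.trans hab) _, fun x hx => ?_⟩
    have hn3 : (3 : ℝ) ≤ n := by exact_mod_cast hn
    exact Real.rpow_le_rpow_of_nonpos (ha.trans_le hx.1) hx.2 (by linarith)
  -- `∫_K sqrt(F_-) |∇u| → 0`
  have key : Tendsto (fun k => ∫ x in K, Real.sqrt (Fn (F k) (u k) x) * gr (u k) x) atTop
      (𝓝 0) := by
    rw [Metric.tendsto_atTop']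
    intro ε hε
    set V : ℝ := volume.real K with hV
    have hV0 : 0 ≤ V := measureReal_nonneg
    set D : ℝ := |C1| + V + 1 with hD
    have hD0 : 0 < D := by positivity
    set δ : ℝ := (ε / (4 * D)) ^ 2 / 2 with hδ
    have hδ0 : 0 < δ := by positivity
    have hsδ : Real.sqrt (2 * δ) = ε / (4 * D) := by
      rw [hδ, show 2 * ((ε / (4 * D)) ^ 2 / 2) = (ε / (4 * D)) ^ 2 by ring]
      exact Real.sqrt_sq (by positivity)
    have hwC : ∀ k, ContDiff ℝ 1 (fun s => wd δ (F k s)) := fun k =>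
      (wd_contDiff hδ0).comp ((h.st k).F_C2.of_le (by norm_num))
    have hA := tendsto_AI hn hT h hN h9 hψ hψ0 hψs (w := fun k s => wd δ (F k s)) hwC
      (fun k x => wd_nonneg _ _) (fun k x => wd_le _ _)
    have hA1 : ∀ᶠ k in atTop, AI (u k) (fun s => wd δ (F k s)) ψ < m * (ε / 4) :=
      hA.eventually (gt_mem_nhds (by positivity))
    obtain ⟨k0, hk0⟩ := eventually_atTop.1 (hA1.and hC1)
    refine ⟨k0, fun k hk => ?_⟩
    obtain ⟨k1, k2⟩ := hk0 k hk.le
    have hst := h.st k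
    have hwgr : Continuous fun x => wd δ (F k (u k x)) * gr (u k) x :=
      ((hwC k).continuous.comp hst.continuous).mul (continuous_gr (smooth1 hst.smooth))
    have hgrc : Continuous (gr (u k)) := continuous_gr (smooth1 hst.smooth)
    -- first part
    have e1 : m * ∫ x in K, wd δ (F k (u k x)) * gr (u k) x ≤
        AI (u k) (fun s => wd δ (F k s)) ψ := by
      have hn3 : (3 : ℝ) ≤ n := by exact_mod_cast hn
      have hs1 : (1 - (n : ℝ)) ≠ 0 := by intro h; linarith
      have i1 := rad_integrable (n := n) hs1 hψ.1.continuous hψs hwgr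
      rw [← integral_const_mul]
      have e2 : ∫ x in K, m * (wd δ (F k (u k x)) * gr (u k) x) ≤
          ∫ x in K, ‖x‖ ^ (1 - (n : ℝ)) * ψ (Real.log ‖x‖) *
            (wd δ (F k (u k x)) * gr (u k) x) := by
        refine setIntegral_mono_on
          ((continuous_const.mul hwgr).continuousOn.integrableOn_compact hK) i1.integrableOn
          hK.measurableSet fun x hx => ?_
        have hxA := hKAA hx
        have hpos : 0 < ‖x‖ := ha.trans_le hxA.1
        have h1 : ψ (Real.log ‖x‖) = 1 := hψ1 _ ⟨Real.log_le_log ha hxA.1,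
          Real.log_le_log hpos hxA.2⟩
        rw [h1, mul_one]
        exact mul_le_mul_of_nonneg_right (hm x hxA) (mul_nonneg (wd_nonneg _ _) (gr_nonneg _ _))
      refine e2.trans ?_
      refine setIntegral_le_integral i1 (Eventually.of_forall fun x => ?_)
      exact mul_nonneg (mul_nonneg (Real.rpow_nonneg (norm_nonneg _) _) (hψ0 _))
        (mul_nonneg (wd_nonneg _ _) (gr_nonneg _ _))
    have e3 : ∫ x in K, wd δ (F k (u k x)) * gr (u k) x < ε / 4 := by
      have := e1.trans_lt k1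
      exact lt_of_mul_lt_mul_left this hm0.le
    -- second part
    have e4 : ∫ x in K, Real.sqrt (Fn (F k) (u k) x) * gr (u k) x ≤
        ∫ x in K, (wd δ (F k (u k x)) * gr (u k) x + ε / (4 * D) * (gsq (u k) x + 1)) := by
      refine setIntegral_mono (hFgi k) ?_ fun x => ?_
      · exact (hwgr.add (continuous_const.mul ((continuous_gsq (smooth1 hst.smooth)).add
          continuous_const))).continuousOn.integrableOn_compact hK
      · have h1 := sqrt_le_wd hδ0 (F k (u k x))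
        rw [hsδ] at h1
        have h2 := gr_nonneg (u k) x
        have h3 := gr_sq (u k) x
        have h4 : gr (u k) x ≤ gsq (u k) x + 1 := by nlinarith [sq_nonneg (gr (u k) x - 1)]
        have h5 : 0 < ε / (4 * D) := by positivity
        show Real.sqrt (max (-(F k (u k x))) 0) * gr (u k) x ≤
          wd δ (F k (u k x)) * gr (u k) x + ε / (4 * D) * (gsq (u k) x + 1)
        calc Real.sqrt (max (-(F k (u k x))) 0) * gr (u k) x
            ≤ (wd δ (F k (u k x)) + ε / (4 * D)) * gr (u k) x :=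
              mul_le_mul_of_nonneg_right h1 h2
          _ = wd δ (F k (u k x)) * gr (u k) x + ε / (4 * D) * gr (u k) x := by ring
          _ ≤ _ := by linarith [mul_le_mul_of_nonneg_left h4 h5.le]
    have i2 : IntegrableOn (fun x => wd δ (F k (u k x)) * gr (u k) x) K :=
      hwgr.continuousOn.integrableOn_compact hK
    have i3 : IntegrableOn (fun _ : E n => (1 : ℝ)) K :=
      continuous_const.continuousOn.integrableOn_compact hK
    have i4 : IntegrableOn (fun x => gsq (u k) x + 1) K := (hgsqi k).add i3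
    rw [integral_add i2 (i4.const_mul _), integral_const_mul, integral_add (hgsqi k) i3,
      setIntegral_const, smul_eq_mul, mul_one] at e4
    have e5 : ε / (4 * D) * ((∫ x in K, gsq (u k) x) + V) ≤ ε / 4 := by
      have h1 : (∫ x in K, gsq (u k) x) + V ≤ D := by
        rw [hD]
        linarith [le_abs_self C1]
      calc ε / (4 * D) * ((∫ x in K, gsq (u k) x) + V) ≤ ε / (4 * D) * D :=
            mul_le_mul_of_nonneg_left h1 (by positivity)
        _ = ε / 4 := by field_simp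
    have e6 : 0 ≤ ∫ x in K, Real.sqrt (Fn (F k) (u k) x) * gr (u k) x :=
      integral_nonneg fun x => mul_nonneg (Real.sqrt_nonneg _) (gr_nonneg _ _)
    rw [Real.dist_eq, sub_zero, abs_of_nonneg e6]
    linarith
  -- conclusion
  have hlim : Tendsto (fun k => 2 * (∫ x in K, Real.sqrt (Fn (F k) (u k) x) * gr (u k) x) +
      2 * ∫ x in K, cn (F k) (u k) x) atTop (𝓝 0) := by
    have := (key.const_mul 2).add (hcn.const_mul 2)
    simpa using this
  refine squeeze_zero (fun k => integral_nonneg fun x => Fn_nonneg _ _ _) (fun k => ?_) hlim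
  rw [← integral_const_mul, ← integral_const_mul,
    ← integral_add ((hFgi k).const_mul 2) ((hcni k).const_mul 2)]
  exact setIntegral_mono ((continuous_Fn (h.st k)).continuousOn.integrableOn_compact hK)
    (((hFgi k).const_mul 2).add ((hcni k).const_mul 2)) fun x => Fn_le' _ _ x

theorem mol_continuous {ρ : ℝ} (hρ : 0 < ρ) {g : E n → ℝ} (hg : Continuous g) :
    Continuous (mol ρ g) := by
  have h4 : Continuous fun x : E n => ∫ y in Metric.closedBall (0 : E n) ρ, mk ρ y * g (x - y) :=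
    continuous_parametric_integral_of_continuous (f := fun (x y : E n) => mk ρ y * g (x - y))
      (((mk_continuous hρ).comp continuous_snd).mul
        (hg.comp (continuous_fst.sub continuous_snd))) (isCompact_closedBall _ _)
  have h5 : mol ρ g = fun x : E n => ∫ y in Metric.closedBall (0 : E n) ρ,
      mk ρ y * g (x - y) := by
    funext x
    unfold mol
    rw [setIntegral_eq_integral_of_forall_compl_eq_zero]
    intro y hy
    rw [Metric.mem_closedBall, dist_zero_right, not_le] at hy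
    rw [mk_zero hy, zero_mul]
  rw [h5]
  exact h4

/-- M10b -/
theorem b_F' (hn : 3 ≤ n) (hT : Transport n) (h : BadSeq u f F) (hN : Normed u F)
    (h9 : M9H u f F) {K : Set (E n)} (hK : IsCompact K) (h0 : (0 : E n) ∉ K) :
    Tendsto (fun k => ∫ x in K, |F k (u k x)|) atTop (𝓝 0) := by
  obtain ⟨a, b, ha, hab, hKAA⟩ := exists_AA hK h0
  set ρ : ℝ := a / 8 with hρ
  have hρ0 : 0 < ρ := by positivity
  -- enlarged annuli
  have hK1c : IsCompact (AA n (a - ρ) (b + ρ)) := AA_compact _ _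
  have hK1z : (0 : E n) ∉ AA n (a - ρ) (b + ρ) := AA_zero (by rw [hρ]; linarith)
  have hK2c : IsCompact (AA n (a - ρ - ρ) (b + ρ + ρ)) := AA_compact _ _
  have hK2z : (0 : E n) ∉ AA n (a - ρ - ρ) (b + ρ + ρ) := AA_zero (by rw [hρ]; linarith)
  have hF1 := tendsto_Fn hn hT h hN h9 hK2c hK2z
  have hF0 := tendsto_Fn hn hT h hN h9 hK h0
  set V : ℝ := volume.real (AA n (a - ρ) (b + ρ)) with hV
  have hV0 : 0 ≤ V := measureReal_nonneg
  rw [Metric.tendsto_atTop']
  intro ε hε
  have hN1 := hN _ hK1c hK1z ρ hρ0 (by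
    intro x hx
    have := hx.1
    rw [hρ] at this ⊢
    linarith) (ε / (4 * (V + 1))) (by positivity)
  have hF1' : ∀ᶠ k in atTop, ∫ x in AA n (a - ρ - ρ) (b + ρ + ρ), Fn (F k) (u k) x < ε / 4 :=
    hF1.eventually (gt_mem_nhds (by linarith))
  have hF0' : ∀ᶠ k in atTop, ∫ x in K, Fn (F k) (u k) x < ε / 4 :=
    hF0.eventually (gt_mem_nhds (by linarith))
  obtain ⟨k0, hk0⟩ := eventually_atTop.1 (hN1.and (hF1'.and hF0'))
  refine ⟨k0, fun k hk => ?_⟩
  obtain ⟨k1, k2, k3⟩ := hk0 k hk.le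
  have hst := h.st k
  have hFc := continuous_Fu hst
  have hFnc := continuous_Fn hst
  set P : E n → ℝ := fun x => F k (u k x) + Fn (F k) (u k) x with hP
  have hPc : Continuous P := hFc.add hFnc
  have hP0 : ∀ x, 0 ≤ P x := by
    intro x
    have : -(F k (u k x)) ≤ Fn (F k) (u k) x := le_max_left _ _
    show 0 ≤ F k (u k x) + Fn (F k) (u k) x
    linarith
  have hsub1 : ∀ x ∈ K, ∀ y : E n, ‖y‖ ≤ ρ → x + y ∈ AA n (a - ρ) (b + ρ) :=
    fun x hx y hy => AA_add (hKAA hx) hy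
  have hsub2 : ∀ x ∈ AA n (a - ρ) (b + ρ), ∀ y : E n, ‖y‖ ≤ ρ →
      x + y ∈ AA n (a - ρ - ρ) (b + ρ + ρ) := fun x hx y hy => AA_add hx hy
  have e1 : ∫ x in K, P x ≤ ∫ x in AA n (a - ρ) (b + ρ), mol ρ P x :=
    le_mol hρ0 hK hK1c hPc hP0 hsub1
  have e2 : ∀ x, mol ρ P x = mol ρ (fun y => F k (u k y)) x + mol ρ (Fn (F k) (u k)) x :=
    fun x => mol_add hρ0 hFc hFnc x
  have i1 : IntegrableOn (mol ρ (fun y => F k (u k y))) (AA n (a - ρ) (b + ρ)) :=
    (mol_continuous hρ0 hFc).continuousOn.integrableOn_compact hK1c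
  have i2 : IntegrableOn (mol ρ (Fn (F k) (u k))) (AA n (a - ρ) (b + ρ)) :=
    (mol_continuous hρ0 hFnc).continuousOn.integrableOn_compact hK1c
  have e3 : ∫ x in AA n (a - ρ) (b + ρ), mol ρ P x =
      (∫ x in AA n (a - ρ) (b + ρ), mol ρ (fun y => F k (u k y)) x) +
        ∫ x in AA n (a - ρ) (b + ρ), mol ρ (Fn (F k) (u k)) x := by
    rw [← integral_add i1 i2]
    exact integral_congr_ae (Eventually.of_forall e2)
  have e4 : ∫ x in AA n (a - ρ) (b + ρ), mol ρ (fun y => F k (u k y)) x ≤ ε / 4 := by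
    have i3 : IntegrableOn (fun _ : E n => ε / (4 * (V + 1))) (AA n (a - ρ) (b + ρ)) :=
      continuous_const.continuousOn.integrableOn_compact hK1c
    have h1 : ∫ x in AA n (a - ρ) (b + ρ), mol ρ (fun y => F k (u k y)) x ≤
        ∫ _ in AA n (a - ρ) (b + ρ), ε / (4 * (V + 1)) :=
      setIntegral_mono_on i1 i3 hK1c.measurableSet fun x hx => (le_abs_self _).trans (k1 x hx)
    rw [setIntegral_const, smul_eq_mul] at h1
    refine h1.trans ?_
    rw [← hV, mul_div_assoc', div_le_div_iff₀ (by positivity) (by norm_num)]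
    nlinarith
  have e5 := mol_le hρ0 hK1c hK2c hFnc (fun x => Fn_nonneg _ _ x) hsub2
  -- `|F| = P + F_-`
  have e6 : ∫ x in K, |F k (u k x)| = (∫ x in K, P x) + ∫ x in K, Fn (F k) (u k) x := by
    rw [← integral_add (hPc.continuousOn.integrableOn_compact hK)
      (hFnc.continuousOn.integrableOn_compact hK)]
    refine integral_congr_ae (Eventually.of_forall fun x => ?_)
    show |F k (u k x)| = F k (u k x) + Fn (F k) (u k) x + Fn (F k) (u k) x
    unfold Fn
    rcases le_total 0 (F k (u k x)) with hh | hh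
    · rw [abs_of_nonneg hh, max_eq_right (by linarith)]; ring
    · rw [abs_of_nonpos hh, max_eq_left (by linarith)]; ring
  have e7 : 0 ≤ ∫ x in K, |F k (u k x)| := integral_nonneg fun x => abs_nonneg _
  rw [Real.dist_eq, sub_zero, abs_of_nonneg e7, e6]
  rw [e3] at e1
  linarith

/-- M10c for normalised sequences -/
theorem b_trans' (hn : 3 ≤ n) (hT : Transport n) (h : BadSeq u f F) (hN : Normed u F)
    (h9 : M9H u f F) {K : Set (E n)} (hK : IsCompact K) (h0 : (0 : E n) ∉ K) :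
    ∀ ε > 0, ∃ δ > 0, ∀ᶠ k in atTop, ∀ y : E n, ‖y‖ ≤ δ →
      ∫ x in K, |gsq (u k) (x + y) - gsq (u k) x| ≤ ε := by
  intro ε hε
  obtain ⟨a, b, ha, hab, hKAA⟩ := exists_AA hK h0
  have hK1c : IsCompact (AA n (a / 2) (b + a)) := AA_compact _ _
  have hK1z : (0 : E n) ∉ AA n (a / 2) (b + a) := AA_zero (by linarith)
  obtain ⟨C, hC0, hC⟩ := gr_cE_bound h h9.en h9.W hK1c hK1z
  have hF := b_F' hn hT h hN h9 hK1c hK1z
  have hF1 : ∀ᶠ k in atTop, ∫ x in AA n (a / 2) (b + a), |F k (u k x)| < ε / 8 :=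
    hF.eventually (gt_mem_nhds (by linarith))
  refine ⟨min (a / 4) (ε / (8 * C)), lt_min (by linarith) (by positivity), ?_⟩
  filter_upwards [hC, hF1] with k k1 k2 y hy
  have hya : ‖y‖ ≤ a / 4 := hy.trans (min_le_left _ _)
  have hyC : ‖y‖ ≤ ε / (8 * C) := hy.trans (min_le_right _ _)
  have hst := h.st k
  have hFc := continuous_Fu hst
  have hcE := contDiff_cE hst
  have hsub : ∀ x ∈ K, ∀ z : E n, ‖z‖ ≤ a / 4 → x + z ∈ AA n (a / 2) (b + a) := by
    intro x hx z hz
    exact AA_mono (by linarith) (by linarith) (AA_add (hKAA hx) hz)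
  have e1 := trans_le hK hK1c hcE y (by
    intro x hx t ht
    refine hsub x hx _ ?_
    rw [norm_smul, Real.norm_eq_abs, abs_of_nonneg ht.1]
    calc t * ‖y‖ ≤ 1 * ‖y‖ := mul_le_mul_of_nonneg_right ht.2 (norm_nonneg _)
      _ ≤ a / 4 := by rw [one_mul]; exact hya)
  have e2 : ‖y‖ * ∫ x in AA n (a / 2) (b + a), gr (cE (F k) (u k)) x ≤ ε / 8 := by
    calc ‖y‖ * ∫ x in AA n (a / 2) (b + a), gr (cE (F k) (u k)) x ≤ ε / (8 * C) * C :=
          mul_le_mul hyC k1 (integral_nonneg fun x => gr_nonneg _ _) (by positivity)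
      _ = ε / 8 := by field_simp
  have e3 : ∫ x in K, |F k (u k (x + y))| ≤ ∫ x in AA n (a / 2) (b + a), |F k (u k x)| :=
    setIntegral_shift_le hK hK1c hFc.abs (fun x => abs_nonneg _) y
      (fun x hx => hsub x hx y hya)
  have e4 : ∫ x in K, |F k (u k x)| ≤ ∫ x in AA n (a / 2) (b + a), |F k (u k x)| := by
    have := setIntegral_shift_le hK hK1c hFc.abs (fun x => abs_nonneg _) (0 : E n)
      (fun x hx => hsub x hx 0 (by rw [norm_zero]; linarith))
    simpa using this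
  have hsh : Continuous fun x : E n => x + y := continuous_id.add continuous_const
  have i1 : IntegrableOn (fun x => |cE (F k) (u k) (x + y) - cE (F k) (u k) x|) K :=
    ((hcE.continuous.comp hsh).sub hcE.continuous).abs.continuousOn.integrableOn_compact hK
  have i2 : IntegrableOn (fun x => |F k (u k (x + y))|) K :=
    (hFc.comp hsh).abs.continuousOn.integrableOn_compact hK
  have i3 : IntegrableOn (fun x => |F k (u k x)|) K :=
    hFc.abs.continuousOn.integrableOn_compact hK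
  have i4 : IntegrableOn (fun x => |gsq (u k) (x + y) - gsq (u k) x|) K :=
    (((continuous_gsq (smooth1 hst.smooth)).comp hsh).sub
      (continuous_gsq (smooth1 hst.smooth))).abs.continuousOn.integrableOn_compact hK
  have i12 : IntegrableOn (fun x => |cE (F k) (u k) (x + y) - cE (F k) (u k) x| +
      |F k (u k (x + y))|) K := i1.add i2
  have e5 : ∫ x in K, |gsq (u k) (x + y) - gsq (u k) x| ≤
      ∫ x in K, 2 * (|cE (F k) (u k) (x + y) - cE (F k) (u k) x| +
        |F k (u k (x + y))| + |F k (u k x)|) := by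
    refine setIntegral_mono i4 ((i12.add i3).const_mul 2) fun x => ?_
    have h1 : gsq (u k) (x + y) - gsq (u k) x =
        2 * ((cE (F k) (u k) (x + y) - cE (F k) (u k) x) - F k (u k (x + y)) + F k (u k x)) := by
      unfold cE; ring
    show |gsq (u k) (x + y) - gsq (u k) x| ≤ 2 * (|cE (F k) (u k) (x + y) - cE (F k) (u k) x| +
        |F k (u k (x + y))| + |F k (u k x)|)
    rw [h1, abs_mul, abs_two]
    refine mul_le_mul_of_nonneg_left ?_ (by norm_num)
    exact (abs_add_le _ _).trans (add_le_add ((abs_sub _ _)) le_rfl)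
  rw [integral_const_mul, integral_add i12 i3, integral_add i1 i2] at e5
  linarith

theorem bshift (h : BadSeq u f F) (κ : ℕ → ℝ) : BadSeq u f (fun k s => F k s - κ k) where
  st := fun k => { h.st k with F_deriv := fun s => ((h.st k).F_deriv s).sub_const (κ k) }
  R0 := h.R0
  D1 := h.D1

/-- M10c; `hnorm` is the conclusion of `b_norm` -/
theorem b_trans'' (hn : 3 ≤ n) (hT : Transport n) (h : BadSeq u f F)
    (h9 : M9H u f F) (hnorm : ∃ κ : ℕ → ℝ,
      ∀ K : Set (E n), IsCompact K → (0 : E n) ∉ K → ∀ ρ > 0, (∀ x ∈ K, 2 * ρ < ‖x‖) →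
        ∀ ε > 0, ∀ᶠ k in atTop, ∀ x ∈ K, |mol ρ (fun y => F k (u k y) - κ k) x| ≤ ε)
    {K : Set (E n)} (hK : IsCompact K) (h0 : (0 : E n) ∉ K) :
    ∀ ε > 0, ∃ δ > 0, ∀ᶠ k in atTop, ∀ y : E n, ‖y‖ ≤ δ →
      ∫ x in K, |gsq (u k) (x + y) - gsq (u k) x| ≤ ε := by
  obtain ⟨κ, hκ⟩ := hnorm
  exact b_trans' hn hT (bshift h κ) hκ ⟨h9.en, h9.W, h9.c⟩ hK h0

end Seq

end H69

end Pool.Agent.H94.Stab
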