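import Pool.Agent.H69.Stab.Mol

/-!
# M10a and the translation estimate for `c_E`
-/

set_option autoImplicit false

open MeasureTheory Set Filter Topology
open scoped ContDiff

namespace Pool.Agent.H94.Stab

namespace H69

/-- normalised bad sequences -/
def Normed {n : ℕ} (u : ℕ → E n → ℝ) (F : ℕ → ℝ → ℝ) : Prop :=
  ∀ K : Set (E n), IsCompact K → (0 : E n) ∉ K → ∀ ρ > 0, (∀ x ∈ K, 2 * ρ < ‖x‖) →
      ∀ ε > 0, ∀ᶠ k in atTop, ∀ x ∈ K, |mol ρ (fun y => F k (u k y)) x| ≤ ε

variable {n : ℕ}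

/-! ### closed annuli -/

/-- closed annulus -/
def AA (n : ℕ) (a b : ℝ) : Set (E n) := {x | a ≤ ‖x‖ ∧ ‖x‖ ≤ b}

theorem AA_compact (a b : ℝ) : IsCompact (AA n a b) := by
  refine (isCompact_closedBall (0 : E n) b).of_isClosed_subset ?_ ?_
  · exact (isClosed_le continuous_const continuous_norm).inter
      (isClosed_le continuous_norm continuous_const)
  · intro x hx
    simpa using hx.2

theorem AA_zero {a b : ℝ} (ha : 0 < a) : (0 : E n) ∉ AA n a b := by
  rintro ⟨h1, _⟩
  rw [norm_zero] at h1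
  linarith

theorem AA_mono {a b a' b' : ℝ} (h1 : a' ≤ a) (h2 : b ≤ b') : AA n a b ⊆ AA n a' b' :=
  fun _ hx => ⟨h1.trans hx.1, hx.2.trans h2⟩

theorem AA_add {a b r : ℝ} {x y : E n} (hx : x ∈ AA n a b) (hy : ‖y‖ ≤ r) :
    x + y ∈ AA n (a - r) (b + r) := by
  refine ⟨?_, ?_⟩
  · have h1 : ‖x‖ ≤ ‖x + y‖ + ‖y‖ := by
      have := norm_sub_le (x + y) y
      simpa using this
    linarith [hx.1]
  · have := norm_add_le x y
    linarith [hx.2]

theorem exists_AA {K : Set (E n)} (hK : IsCompact K) (h0 : (0 : E n) ∉ K) :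
    ∃ a b : ℝ, 0 < a ∧ a < b ∧ K ⊆ AA n a b := by
  rcases K.eq_empty_or_nonempty with rfl | hne
  · exact ⟨1, 2, by norm_num, by norm_num, empty_subset _⟩
  · obtain ⟨x0, hx0, h1⟩ := hK.exists_isMinOn hne continuous_norm.continuousOn
    obtain ⟨x1, hx1, h2⟩ := hK.exists_isMaxOn hne continuous_norm.continuousOn
    refine ⟨‖x0‖, ‖x1‖ + 1, ?_, ?_, ?_⟩
    · rw [norm_pos_iff]
      rintro rfl
      exact h0 hx0
    · have := h1 hx1
      simp only [mem_ofPred_eq] at this
      linarith
    · intro x hx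
      have h3 := h1 hx
      have h4 := h2 hx
      simp only [mem_ofPred_eq] at h3 h4
      exact ⟨h3, by linarith⟩

theorem AA_sub_Ann {a b : ℝ} (ha : 0 < a) : ∀ᶠ k : ℕ in atTop, AA n a b ⊆ Ann n k := by
  have h1 : ∀ᶠ k : ℕ in atTop, Real.exp (-(k : ℝ)) < a := by
    have : Tendsto (fun k : ℕ => Real.exp (-(k : ℝ))) atTop (𝓝 0) :=
      Real.tendsto_exp_neg_atTop_nhds_zero.comp tendsto_natCast_atTop_atTop
    exact this.eventually (gt_mem_nhds ha)
  have h2 : ∀ᶠ k : ℕ in atTop, b < Real.exp (k : ℝ) :=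
    (Real.tendsto_exp_atTop.comp tendsto_natCast_atTop_atTop).eventually_gt_atTop b
  filter_upwards [h1, h2] with k hk1 hk2 x hx
  exact ⟨hk1.trans_le hx.1, hx.2.trans_lt hk2⟩

/-! ### `c_E` -/

theorem continuous_Fu {Ω : Set (E n)} {f F : ℝ → ℝ} {u : E n → ℝ} (h : Stable Ω f F u) :
    Continuous (fun x => F (u x)) := h.F_C2.continuous.comp h.continuous

theorem contDiff_cE {Ω : Set (E n)} {f F : ℝ → ℝ} {u : E n → ℝ} (h : Stable Ω f F u) :
    ContDiff ℝ 1 (cE F u) := by
  unfold cE
  refine ContDiff.add ?_ ?_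
  · exact ((contDiff_gsq h.smooth).of_le (by exact_mod_cast le_top)).div_const 2
  · exact (h.F_C2.of_le (by norm_num)).comp (h.smooth.of_le (by exact_mod_cast le_top))

theorem pd_cE' {Ω : Set (E n)} {f F : ℝ → ℝ} {u : E n → ℝ} (h : Stable Ω f F u) (x : E n)
    (i : Fin n) : pd i (cE F u) x = ∑ j, Wt f u i j x * pd j u x := by
  have hd : ∀ j, DifferentiableAt ℝ (pd j u) x := fun j =>
    (contDiff_pd_infty j h.smooth).differentiable (by simp) x
  have h1 : pd i (gsq u) x = ∑ j, 2 * pd j u x * pd i (pd j u) x := by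
    unfold gsq
    rw [pd_sum (g := fun j y => pd j u y ^ 2) i (fun j _ => (hd j).pow 2)]
    exact Finset.sum_congr rfl fun j _ => pd_sq i (hd j)
  have h2 : pd i (cE F u) x = (1 / 2) * pd i (gsq u) x + f (u x) * pd i u x := by
    have e : cE F u = fun x => (1 / 2) * gsq u x + F (u x) := by
      funext y; unfold cE; ring
    have hg : DifferentiableAt ℝ (gsq u) x :=
      (contDiff_gsq h.smooth).differentiable (by simp) x
    have hu : DifferentiableAt ℝ u x := h.smooth.differentiable (by simp) x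
    rw [e, pd_add (g := fun y => (1 / 2) * gsq u y) (h := fun y => F (u y)) i (hg.const_mul _)
      ((h.F_deriv (u x)).differentiableAt.comp x hu),
      pd_const_mul i _ hg, pd_comp' i (h.F_deriv (u x)) hu]
  rw [h2, h1, Finset.mul_sum]
  have h3 : f (u x) * pd i u x = ∑ j, f (u x) * nu u i x * (nu u j x * pd j u x) := by
    rw [← Finset.mul_sum, sum_nu_mul_pd, mul_assoc, mul_comm (nu u i x), gr_mul_nu]
  rw [h3, ← Finset.sum_add_distrib]
  refine Finset.sum_congr rfl fun j _ => ?_
  unfold Wt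
  ring

theorem gr_cE_le {Ω : Set (E n)} {f F : ℝ → ℝ} {u : E n → ℝ} (h : Stable Ω f F u) (x : E n) :
    gr (cE F u) x ≤ (Wsq f u x + gsq u x) / 2 := by
  have h1 : gsq (cE F u) x ≤ Wsq f u x * gsq u x := by
    unfold gsq Wsq
    rw [Finset.sum_mul]
    refine Finset.sum_le_sum fun i _ => ?_
    rw [pd_cE' h]
    exact Finset.sum_mul_sq_le_sq_mul_sq _ _ _
  have h2 := Wsq_nonneg f u x
  have h3 := gsq_nonneg u x
  unfold gr
  refine Real.sqrt_le_iff.2 ⟨by positivity, h1.trans ?_⟩
  nlinarith [sq_nonneg (Wsq f u x - gsq u x)]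

/-- distance to the mollification in `L¹` -/
theorem sub_mol_le {ρ : ℝ} (hρ : 0 < ρ) {K K' : Set (E n)} (hK : IsCompact K)
    (hK' : IsCompact K') {g : E n → ℝ} (hg : ContDiff ℝ 1 g)
    (hsub : ∀ x ∈ K, ∀ y : E n, ‖y‖ ≤ ρ → x + y ∈ K') :
    ∫ x in K, |g x - mol ρ g x| ≤ ρ * ∫ x in K', gr g x := by
  have hgc := hg.continuous
  have h0 : ∀ x, |g x - mol ρ g x| ≤ ∫ y : E n, mk ρ y * |g (x - y) - g x| := by
    intro x
    have h1 : g x - mol ρ g x = ∫ y : E n, mk ρ y * (g x - g (x - y)) := by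
      unfold mol
      have : g x = ∫ y : E n, mk ρ y * g x := by
        rw [integral_mul_const, mk_integral hρ, one_mul]
      conv_lhs => rw [this]
      rw [← integral_sub ((mk_integrable hρ).mul_const _) (mol_integrable hρ hgc x)]
      congr 1
      ext y
      ring
    rw [h1, ← Real.norm_eq_abs]
    refine (norm_integral_le_integral_norm _).trans (le_of_eq ?_)
    congr 1
    ext y
    rw [norm_mul, Real.norm_eq_abs, Real.norm_eq_abs, abs_of_nonneg (mk_nonneg y), abs_sub_comm]
  have hG : Continuous (Function.uncurry fun (x y : E n) => |g (x - y) - g x|) :=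
    ((hgc.comp (continuous_fst.sub continuous_snd)).sub (hgc.comp continuous_fst)).abs
  have hcI : Continuous fun y : E n => ∫ x in K, |g (x - y) - g x| :=
    continuous_parametric_integral_of_continuous (f := fun (y x : E n) => |g (x - y) - g x|)
      ((hgc.comp (continuous_snd.sub continuous_fst)).sub (hgc.comp continuous_snd)).abs hK
  have h2 : ∫ x in K, |g x - mol ρ g x| ≤ ∫ x in K, ∫ y : E n, mk ρ y * |g (x - y) - g x| := by
    refine integral_mono_of_nonneg (Eventually.of_forall fun x => abs_nonneg _) ?_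
      (Eventually.of_forall h0)
    have hc : Continuous (Function.uncurry fun (x y : E n) => mk ρ y * |g (x - y) - g x|) :=
      ((mk_continuous hρ).comp continuous_snd).mul hG
    have h3 : Continuous fun x : E n => ∫ y in Metric.closedBall (0 : E n) ρ,
        mk ρ y * |g (x - y) - g x| :=
      continuous_parametric_integral_of_continuous hc (isCompact_closedBall _ _)
    have h4 : (fun x : E n => ∫ y : E n, mk ρ y * |g (x - y) - g x|) =
        fun x : E n => ∫ y in Metric.closedBall (0 : E n) ρ, mk ρ y * |g (x - y) - g x| := by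
      funext x
      rw [setIntegral_eq_integral_of_forall_compl_eq_zero]
      intro y hy
      rw [Metric.mem_closedBall, dist_zero_right, not_le] at hy
      rw [mk_zero hy, zero_mul]
    rw [h4]
    exact h3.continuousOn.integrableOn_compact hK
  refine h2.trans ?_
  rw [mk_fubini hρ hK hG]
  have h5 : ρ * ∫ x in K', gr g x = ∫ y : E n, mk ρ y * (ρ * ∫ x in K', gr g x) := by
    rw [integral_mul_const, mk_integral hρ, one_mul]
  rw [h5]
  refine integral_mono (mk_mul_integrable hρ hcI) ((mk_integrable hρ).mul_const _) fun y => ?_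
  by_cases hy : ‖y‖ ≤ ρ
  · refine mul_le_mul_of_nonneg_left ?_ (mk_nonneg y)
    have h6 := trans_le hK hK' hg (-y) (by
      intro x hx t ht
      refine hsub x hx _ ?_
      rw [norm_smul, norm_neg, Real.norm_eq_abs, abs_of_nonneg ht.1]
      calc t * ‖y‖ ≤ 1 * ‖y‖ := mul_le_mul_of_nonneg_right ht.2 (norm_nonneg _)
        _ ≤ ρ := by rw [one_mul]; exact hy)
    rw [norm_neg] at h6
    simp only [← sub_eq_add_neg] at h6
    exact h6.trans (mul_le_mul_of_nonneg_right hy
      (integral_nonneg fun x => gr_nonneg _ _))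
  · simp only [mk_zero (not_le.1 hy), zero_mul]
    exact le_rfl

section Seq

variable {u : ℕ → E n → ℝ} {f F : ℕ → ℝ → ℝ}

/-- uniform bound for the gradient of `c_E` -/
theorem gr_cE_bound (h : BadSeq u f F)
    (hE : ∀ {K : Set (E n)}, IsCompact K → (0 : E n) ∉ K →
      ∃ C : ℝ, ∀ᶠ k in atTop, ∫ x in K, gsq (u k) x ≤ C)
    (hW : ∀ {K : Set (E n)}, IsCompact K → (0 : E n) ∉ K →
      ∃ C : ℝ, ∀ᶠ k in atTop, ∫ x in K, Wsq (f k) (u k) x ≤ C)
    {K : Set (E n)} (hK : IsCompact K) (h0 : (0 : E n) ∉ K) :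
    ∃ C : ℝ, 0 < C ∧ ∀ᶠ k in atTop, ∫ x in K, gr (cE (F k) (u k)) x ≤ C := by
  obtain ⟨C1, h1⟩ := hE hK h0
  obtain ⟨C2, h2⟩ := hW hK h0
  refine ⟨|C1| + |C2| + 1, by positivity, ?_⟩
  filter_upwards [h1, h2] with k hk1 hk2
  have hst := h.st k
  have i1 : IntegrableOn (gsq (u k)) K := (continuous_gsq
    (hst.smooth.of_le (by exact_mod_cast le_top))).continuousOn.integrableOn_compact hK
  have i2 : IntegrableOn (Wsq (f k) (u k)) K := integrableOn_Wsq hst hK
  have h3 : ∫ x in K, gr (cE (F k) (u k)) x ≤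
      ∫ x in K, (Wsq (f k) (u k) x + gsq (u k) x) / 2 := by
    refine integral_mono_of_nonneg (Eventually.of_forall fun x => gr_nonneg _ _)
      ((i2.add i1).div_const 2) (Eventually.of_forall fun x => gr_cE_le hst x)
  rw [integral_div, integral_add i2 i1] at h3
  have := le_abs_self C1
  have := le_abs_self C2
  have := abs_nonneg C1
  have := abs_nonneg C2
  linarith

/-- M10a -/
theorem b_cEneg' (h : BadSeq u f F) (hN : Normed u F)
    (hE : ∀ {K : Set (E n)}, IsCompact K → (0 : E n) ∉ K →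
      ∃ C : ℝ, ∀ᶠ k in atTop, ∫ x in K, gsq (u k) x ≤ C)
    (hW : ∀ {K : Set (E n)}, IsCompact K → (0 : E n) ∉ K →
      ∃ C : ℝ, ∀ᶠ k in atTop, ∫ x in K, Wsq (f k) (u k) x ≤ C)
    {K : Set (E n)} (hK : IsCompact K) (h0 : (0 : E n) ∉ K) :
    Tendsto (fun k => ∫ x in K, max (-(cE (F k) (u k) x)) 0) atTop (𝓝 0) := by
  obtain ⟨a, b, ha, _, hKAA⟩ := exists_AA hK h0
  have hK'c : IsCompact (AA n (a / 2) (b + a)) := AA_compact _ _
  have hK'0 : (0 : E n) ∉ AA n (a / 2) (b + a) := AA_zero (by linarith)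
  obtain ⟨C, hC0, hC⟩ := gr_cE_bound h hE hW hK'c hK'0
  rw [Metric.tendsto_atTop']
  intro ε hε
  set ρ : ℝ := min (a / 4) (ε / (4 * C)) with hρ
  have hρ0 : 0 < ρ := lt_min (by linarith) (by positivity)
  have hρa : ρ ≤ a / 4 := min_le_left _ _
  have hρC : ρ * C ≤ ε / 4 := by
    have : ρ ≤ ε / (4 * C) := min_le_right _ _
    calc ρ * C ≤ ε / (4 * C) * C := mul_le_mul_of_nonneg_right this hC0.le
      _ = ε / 4 := by field_simp
  set V : ℝ := volume.real K with hV
  have hV0 : 0 ≤ V := measureReal_nonneg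
  have hN1 := hN K hK h0 ρ hρ0 (by
    intro x hx
    have := (hKAA hx).1
    linarith) (ε / (4 * (V + 1))) (by positivity)
  have hev := hC.and hN1
  obtain ⟨k0, hk0⟩ := eventually_atTop.1 hev
  refine ⟨k0, fun k hk => ?_⟩
  obtain ⟨hk1, hk2⟩ := hk0 k hk.le
  have hst := h.st k
  have hcE : ContDiff ℝ 1 (cE (F k) (u k)) := contDiff_cE hst
  have hFu := continuous_Fu hst
  set g := cE (F k) (u k) with hg
  have h1 : ∀ x ∈ K, max (-(g x)) 0 ≤ |g x - mol ρ g x| + ε / (4 * (V + 1)) := by
    intro x hx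
    have h2 : mol ρ (fun y => F k (u k y)) x ≤ mol ρ g x := by
      refine mol_mono hρ0 hFu hcE.continuous (fun y => ?_) x
      rw [hg]; unfold cE
      have := gsq_nonneg (u k) y
      linarith
    have h3 := abs_le.1 (hk2 x hx)
    refine max_le ?_ (by positivity)
    have h4 := neg_abs_le (g x - mol ρ g x)
    linarith [h3.1]
  have hcm : IntegrableOn (fun x => |g x - mol ρ g x| + ε / (4 * (V + 1))) K := by
    have h3 : Continuous (mol ρ g) := by
      have h4 : Continuous fun x : E n => ∫ y in Metric.closedBall (0 : E n) ρ,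
          mk ρ y * g (x - y) :=
        continuous_parametric_integral_of_continuous
          (f := fun (x y : E n) => mk ρ y * g (x - y))
          (((mk_continuous hρ0).comp continuous_snd).mul
            (hcE.continuous.comp (continuous_fst.sub continuous_snd))) (isCompact_closedBall _ _)
      have h5 : mol ρ g = fun x : E n => ∫ y in Metric.closedBall (0 : E n) ρ,
          mk ρ y * g (x - y) := by
        funext x
        unfold mol
        rw [setIntegral_eq_integral_of_forall_compl_eq_zero]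
        intro y hy
        rw [Metric.mem_closedBall, dist_zero_right, not_le] at hy
        rw [mk_zero hy, zero_mul]
      rw [h5]
      exact h4
    exact ((hcE.continuous.sub h3).abs.add continuous_const).continuousOn.integrableOn_compact hK
  have h2 : ∫ x in K, max (-(g x)) 0 ≤ ∫ x in K, (|g x - mol ρ g x| + ε / (4 * (V + 1))) := by
    refine setIntegral_mono_on ?_ hcm hK.measurableSet h1
    exact (hcE.continuous.neg.max continuous_const).continuousOn.integrableOn_compact hK
  have h3 : ∫ x in K, (|g x - mol ρ g x| + ε / (4 * (V + 1))) =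
      (∫ x in K, |g x - mol ρ g x|) + V * (ε / (4 * (V + 1))) := by
    have hi : IntegrableOn (fun _ : E n => ε / (4 * (V + 1))) K :=
      continuous_const.continuousOn.integrableOn_compact hK
    have hi2 : IntegrableOn (fun x => |g x - mol ρ g x|) K := by
      have := hcm.sub hi
      refine this.congr (Eventually.of_forall fun x => ?_)
      simp
    rw [integral_add hi2 hi, setIntegral_const, smul_eq_mul]
  have h4 := sub_mol_le hρ0 hK hK'c hcE (by
    intro x hx y hy
    have h5 := AA_add (hKAA hx) (hy.trans hρa)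
    exact AA_mono (by linarith) (by linarith) h5)
  have h5 : ρ * ∫ x in AA n (a / 2) (b + a), gr g x ≤ ρ * C :=
    mul_le_mul_of_nonneg_left hk1 hρ0.le
  have h6 : V * (ε / (4 * (V + 1))) ≤ ε / 4 := by
    rw [mul_div_assoc', div_le_div_iff₀ (by positivity) (by norm_num)]
    nlinarith
  have h7 : 0 ≤ ∫ x in K, max (-(g x)) 0 := integral_nonneg fun x => le_max_right _ _
  rw [Real.dist_eq, sub_zero, abs_of_nonneg h7]
  linarith

end Seq

end H69

end Pool.Agent.H94.Stab
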