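import Pool.Agent.H69.Stab.M10a

/-!
# M10b: `F → 0` in `L¹`
-/

set_option autoImplicit false

open MeasureTheory Set Filter Topology
open scoped ContDiff

namespace Pool.Agent.H94.Stab

namespace H69

variable {n : ℕ}

/-! ### approximation of the square root of the negative part -/

/-- smooth minorant of `sqrt (s_-)` -/
noncomputable def wd (δ s : ℝ) : ℝ := Real.smoothTransition ((-s - δ) / δ) * Real.sqrt (-s)

theorem wd_contDiff {δ : ℝ} (hδ : 0 < δ) : ContDiff ℝ 1 (wd δ) := by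
  rw [contDiff_iff_contDiffAt]
  intro s
  by_cases hs : s < 0
  · unfold wd
    refine ContDiffAt.mul ?_ ?_
    · exact (Real.smoothTransition.contDiff.comp
        ((contDiff_neg.sub contDiff_const).div_const δ)).contDiffAt
    · exact (Real.contDiffAt_sqrt (by linarith)).comp s contDiff_neg.contDiffAt
  · have h1 : wd δ =ᶠ[𝓝 s] fun _ => (0 : ℝ) := by
      have h2 : ∀ᶠ t in 𝓝 s, -δ < t := lt_mem_nhds (by linarith [not_lt.1 hs])
      filter_upwards [h2] with t ht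
      unfold wd
      rw [Real.smoothTransition.zero_of_nonpos, zero_mul]
      exact div_nonpos_of_nonpos_of_nonneg (by linarith) hδ.le
    exact contDiffAt_const.congr_of_eventuallyEq h1

theorem wd_nonneg (δ s : ℝ) : 0 ≤ wd δ s :=
  mul_nonneg (Real.smoothTransition.nonneg _) (Real.sqrt_nonneg _)

theorem wd_le (δ s : ℝ) : wd δ s ≤ Real.sqrt (max (-s) 0) := by
  unfold wd
  calc Real.smoothTransition ((-s - δ) / δ) * Real.sqrt (-s) ≤ 1 * Real.sqrt (-s) :=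
        mul_le_mul_of_nonneg_right (Real.smoothTransition.le_one _) (Real.sqrt_nonneg _)
    _ ≤ Real.sqrt (max (-s) 0) := by
        rw [one_mul]; exact Real.sqrt_le_sqrt (le_max_left _ _)

theorem sqrt_le_wd {δ : ℝ} (hδ : 0 < δ) (s : ℝ) :
    Real.sqrt (max (-s) 0) ≤ wd δ s + Real.sqrt (2 * δ) := by
  by_cases hs : 2 * δ ≤ -s
  · have h1 : max (-s) 0 = -s := max_eq_left (by linarith)
    have h2 : wd δ s = Real.sqrt (-s) := by
      unfold wd
      rw [Real.smoothTransition.one_of_one_le, one_mul]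
      rw [le_div_iff₀ hδ]; linarith
    rw [h1, h2]
    linarith [Real.sqrt_nonneg (2 * δ)]
  · have h1 : Real.sqrt (max (-s) 0) ≤ Real.sqrt (2 * δ) :=
      Real.sqrt_le_sqrt (max_le (by linarith [not_le.1 hs]) (by positivity))
    linarith [wd_nonneg δ s]

/-! ### bumps on the line -/

theorem exists_bump {p q : ℝ} (hpq : p < q) : ∃ ψ : ℝ → ℝ, Bump1 ψ ∧ (∀ t, 0 ≤ ψ t) ∧
    (∀ t ∈ Icc p q, ψ t = 1) ∧ ∀ t, t ∉ Icc (p - 1) (q + 1) → ψ t = 0 := by
  let b : ContDiffBump ((p + q) / 2) := ⟨(q - p) / 2, (q - p) / 2 + 1, by linarith, by linarith⟩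
  refine ⟨b, ⟨b.contDiff, b.hasCompactSupport⟩, fun t => b.nonneg, ?_, ?_⟩
  · intro t ht
    refine b.one_of_mem_closedBall ?_
    rw [Real.closedBall_eq_Icc]
    exact ⟨by show (p + q) / 2 - (q - p) / 2 ≤ t; linarith [ht.1],
      by show t ≤ (p + q) / 2 + (q - p) / 2; linarith [ht.2]⟩
  · intro t ht
    refine b.zero_of_le_dist ?_
    show (q - p) / 2 + 1 ≤ dist t ((p + q) / 2)
    rw [Real.dist_eq]
    by_contra hcon
    rw [not_le, abs_lt] at hcon
    exact ht ⟨by linarith [hcon.1], by linarith [hcon.2]⟩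

/-- the difference of primitives -/
noncomputable def gJ (ψ : ℝ → ℝ) (J t : ℝ) : ℝ := (∫ s in (0 : ℝ)..t, ψ s) - ∫ s in (0 : ℝ)..(t - J), ψ s

theorem gJ_hasDerivAt {ψ : ℝ → ℝ} (hψ : Continuous ψ) (J t : ℝ) :
    HasDerivAt (gJ ψ J) (ψ t - ψ (t - J)) t := by
  unfold gJ
  have h1 : ∀ t, HasDerivAt (fun t => ∫ s in (0 : ℝ)..t, ψ s) (ψ t) t := fun t =>
    intervalIntegral.integral_hasDerivAt_right (hψ.intervalIntegrable _ _)
      hψ.stronglyMeasurable.stronglyMeasurableAtFilter hψ.continuousAt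
  have h2 : HasDerivAt (fun t : ℝ => t - J) 1 t := (hasDerivAt_id t).sub_const J
  have h3 := (h1 (t - J)).comp t h2
  rw [mul_one] at h3
  exact (h1 t).sub h3

theorem gJ_deriv {ψ : ℝ → ℝ} (hψ : Continuous ψ) (J : ℝ) :
    deriv (gJ ψ J) = fun t => ψ t - ψ (t - J) := funext fun t => (gJ_hasDerivAt hψ J t).deriv

theorem gJ_zero {ψ : ℝ → ℝ} {p q J : ℝ} (hψ : Continuous ψ) (hJ : 0 ≤ J)
    (h0 : ∀ t, t ∉ Icc p q → ψ t = 0) {t : ℝ} (ht : t ∉ Icc p (q + J)) : gJ ψ J t = 0 := by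
  unfold gJ
  rw [intervalIntegral.integral_interval_sub_left (hψ.intervalIntegrable _ _)
    (hψ.intervalIntegrable _ _)]
  rw [intervalIntegral.integral_congr (g := fun _ => (0 : ℝ))]
  · simp
  · intro s hs
    rw [uIcc_of_le (by linarith)] at hs
    refine h0 s fun hs' => ht ?_
    by_contra hcon
    rw [mem_Icc, not_and_or, not_le, not_le] at hcon
    rcases hcon with h | h
    · exact ht (by exact absurd hs'.1 (by linarith [hs.2]))
    · exact ht (by exact absurd hs'.2 (by linarith [hs.1]))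

theorem gJ_bump {ψ : ℝ → ℝ} {p q J : ℝ} (hψ : Bump1 ψ) (hJ : 0 ≤ J)
    (h0 : ∀ t, t ∉ Icc p q → ψ t = 0) : Bump1 (gJ ψ J) := by
  refine ⟨?_, HasCompactSupport.intro (isCompact_Icc (a := p) (b := q + J))
    fun t ht => gJ_zero hψ.1.continuous hJ h0 ht⟩
  rw [contDiff_infty_iff_deriv]
  refine ⟨fun t => (gJ_hasDerivAt hψ.1.continuous J t).differentiableAt, ?_⟩
  rw [gJ_deriv hψ.1.continuous]
  exact hψ.1.sub (hψ.1.comp (contDiff_id.sub contDiff_const))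

/-! ### radial weights -/

theorem rad_continuousOn {s a b : ℝ} (ha : 0 < a) {ψ : ℝ → ℝ} (hψ : Continuous ψ) :
    ContinuousOn (fun x : E n => ‖x‖ ^ s * ψ (Real.log ‖x‖)) (AA n a b) := by
  have h0 : ∀ x ∈ AA n a b, ‖x‖ ≠ 0 := fun x hx => (ha.trans_le hx.1).ne'
  refine ContinuousOn.mul ?_ ?_
  · exact continuous_norm.continuousOn.rpow_const fun x hx => Or.inl (h0 x hx)
  · exact hψ.comp_continuousOn (continuous_norm.continuousOn.log h0)

theorem rad_zero {s p q : ℝ} (hs : s ≠ 0) {ψ : ℝ → ℝ} (h0 : ∀ t, t ∉ Icc p q → ψ t = 0) {x : E n}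
    (hx : x ∉ AA n (Real.exp p) (Real.exp q)) : ‖x‖ ^ s * ψ (Real.log ‖x‖) = 0 := by
  by_cases hx0 : ‖x‖ = 0
  · rw [hx0, Real.zero_rpow hs, zero_mul]
  · have hpos : 0 < ‖x‖ := lt_of_le_of_ne (norm_nonneg _) (Ne.symm hx0)
    rw [h0, mul_zero]
    rintro ⟨h1, h2⟩
    rw [Real.le_log_iff_exp_le hpos] at h1
    rw [Real.log_le_iff_le_exp hpos] at h2
    exact hx ⟨h1, h2⟩

theorem rad_integrable {s p q : ℝ} (hs : s ≠ 0) {ψ : ℝ → ℝ} (hψ : Continuous ψ)
    (h0 : ∀ t, t ∉ Icc p q → ψ t = 0) {h : E n → ℝ} (hh : Continuous h) :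
    Integrable (fun x : E n => ‖x‖ ^ s * ψ (Real.log ‖x‖) * h x) volume := by
  have h1 : IntegrableOn (fun x : E n => ‖x‖ ^ s * ψ (Real.log ‖x‖) * h x)
      (AA n (Real.exp p) (Real.exp q)) volume :=
    ((rad_continuousOn (Real.exp_pos p) hψ).mul hh.continuousOn).integrableOn_compact
      (AA_compact _ _)
  refine h1.integrable_of_forall_notMem_eq_zero fun x hx => ?_
  rw [rad_zero hs h0 hx, zero_mul]

theorem rad_bound {s p q : ℝ} {ψ : ℝ → ℝ} (hψ : Continuous ψ) : ∃ M : ℝ, 0 < M ∧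
    ∀ x ∈ AA n (Real.exp p) (Real.exp q), |‖x‖ ^ s * ψ (Real.log ‖x‖)| ≤ M := by
  obtain ⟨M, hM⟩ := (AA_compact (n := n) (Real.exp p) (Real.exp q)).exists_bound_of_continuousOn
    (rad_continuousOn (s := s) (Real.exp_pos p) hψ)
  refine ⟨|M| + 1, by positivity, fun x hx => ?_⟩
  have := hM x hx
  rw [Real.norm_eq_abs] at this
  linarith [le_abs_self M]

/-! ### products tend to zero -/

theorem tendsto_mul_zero {K : Set (E n)} {α β : ℕ → E n → ℝ} (hα0 : ∀ k x, 0 ≤ α k x)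
    (hβ0 : ∀ k x, 0 ≤ β k x) (hα : ∀ k, IntegrableOn (fun x => α k x ^ 2) K)
    (hβ : ∀ k, IntegrableOn (fun x => β k x ^ 2) K) {C : ℝ}
    (hC : ∀ᶠ k in atTop, ∫ x in K, α k x ^ 2 ≤ C)
    (hβt : Tendsto (fun k => ∫ x in K, β k x ^ 2) atTop (𝓝 0)) :
    Tendsto (fun k => ∫ x in K, α k x * β k x) atTop (𝓝 0) := by
  rw [Metric.tendsto_atTop']
  intro ε hε
  set η : ℝ := ε / (|C| + 1) with hη
  have hη0 : 0 < η := by positivity
  have h1 : ∀ᶠ k in atTop, ∫ x in K, β k x ^ 2 < η * ε := by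
    exact hβt.eventually (gt_mem_nhds (by positivity))
  obtain ⟨k0, hk0⟩ := eventually_atTop.1 (hC.and h1)
  refine ⟨k0, fun k hk => ?_⟩
  obtain ⟨hk1, hk2⟩ := hk0 k hk.le
  have h2 : ∫ x in K, α k x * β k x ≤ ∫ x in K, (η * α k x ^ 2 + η⁻¹ * β k x ^ 2) / 2 := by
    refine integral_mono_of_nonneg
      (Eventually.of_forall fun x => mul_nonneg (hα0 k x) (hβ0 k x))
      (((hα k).const_mul η).add ((hβ k).const_mul η⁻¹) |>.div_const 2)
      (Eventually.of_forall fun x => ?_)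
    have h3 : 0 ≤ (η * α k x - β k x) ^ 2 / η := by positivity
    have h4 : (η * α k x - β k x) ^ 2 / η =
        η * α k x ^ 2 + η⁻¹ * β k x ^ 2 - 2 * (α k x * β k x) := by
      field_simp
      ring
    show α k x * β k x ≤ (η * α k x ^ 2 + η⁻¹ * β k x ^ 2) / 2
    linarith
  rw [integral_div, integral_add ((hα k).const_mul η) ((hβ k).const_mul η⁻¹),
    integral_const_mul, integral_const_mul] at h2
  have h5 : η * ∫ x in K, α k x ^ 2 < ε := by
    have h6 : η * ∫ x in K, α k x ^ 2 ≤ η * |C| :=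
      mul_le_mul_of_nonneg_left (hk1.trans (le_abs_self C)) hη0.le
    have h7 : η * |C| < ε := by
      rw [hη, div_mul_eq_mul_div, div_lt_iff₀ (by positivity)]
      nlinarith [abs_nonneg C]
    linarith
  have h8 : η⁻¹ * ∫ x in K, β k x ^ 2 < ε := by
    rw [inv_mul_lt_iff₀ hη0]
    exact hk2
  have h9 : 0 ≤ ∫ x in K, α k x * β k x :=
    integral_nonneg fun x => mul_nonneg (hα0 k x) (hβ0 k x)
  rw [Real.dist_eq, sub_zero, abs_of_nonneg h9]
  linarith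

/-! ### pointwise inequalities -/

theorem abs_xnu_le (u : E n → ℝ) (x : E n) : |xnu u x| ≤ ‖x‖ := by
  have h1 : xnu u x ^ 2 ≤ (∑ i, x i ^ 2) * ∑ i, nu u i x ^ 2 :=
    Finset.sum_mul_sq_le_sq_mul_sq _ _ _
  have h2 : ‖x‖ ^ 2 = ∑ i, x i ^ 2 := by rw [EuclideanSpace.norm_sq_eq]; simp
  rw [← h2] at h1
  have h3 := sum_nu_sq_le u x
  refine abs_le_of_sq_le_sq (h1.trans ?_) (norm_nonneg _)
  nlinarith [sq_nonneg ‖x‖]

theorem abs_nWn_le (f : ℝ → ℝ) (u : E n → ℝ) (x : E n) :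
    |∑ i, ∑ j, nu u i x * Wt f u i j x * nu u j x| ≤ Real.sqrt (Wsq f u x) := by
  have h1 : ∑ i, ∑ j, nu u i x * Wt f u i j x * nu u j x =
      ∑ i, nu u i x * ∑ j, Wt f u i j x * nu u j x := by
    refine Finset.sum_congr rfl fun i _ => ?_
    rw [Finset.mul_sum]
    exact Finset.sum_congr rfl fun j _ => by ring
  rw [h1]
  have h2 : (∑ i, nu u i x * ∑ j, Wt f u i j x * nu u j x) ^ 2 ≤
      (∑ i, nu u i x ^ 2) * ∑ i, (∑ j, Wt f u i j x * nu u j x) ^ 2 :=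
    Finset.sum_mul_sq_le_sq_mul_sq _ _ _
  have h3 := sum_nu_sq_le u x
  have h4 : ∑ i, (∑ j, Wt f u i j x * nu u j x) ^ 2 ≤ Wsq f u x := by
    unfold Wsq
    refine Finset.sum_le_sum fun i _ => ?_
    have h5 : (∑ j, Wt f u i j x * nu u j x) ^ 2 ≤
        (∑ j, Wt f u i j x ^ 2) * ∑ j, nu u j x ^ 2 := Finset.sum_mul_sq_le_sq_mul_sq _ _ _
    have h6 : 0 ≤ ∑ j, Wt f u i j x ^ 2 := Finset.sum_nonneg fun _ _ => sq_nonneg _
    nlinarith
  have h7 : 0 ≤ ∑ i, (∑ j, Wt f u i j x * nu u j x) ^ 2 :=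
    Finset.sum_nonneg fun _ _ => sq_nonneg _
  have h8 : 0 ≤ ∑ i, nu u i x ^ 2 := Finset.sum_nonneg fun _ _ => sq_nonneg _
  refine abs_le_of_sq_le_sq ?_ (Real.sqrt_nonneg _)
  rw [Real.sq_sqrt (Wsq_nonneg f u x)]
  nlinarith

/-- negative part of `c_E` -/
noncomputable def cn (F : ℝ → ℝ) (u : E n → ℝ) (x : E n) : ℝ := max (-(cE F u x)) 0

/-- negative part of `F(u)` -/
noncomputable def Fn (F : ℝ → ℝ) (u : E n → ℝ) (x : E n) : ℝ := max (-(F (u x))) 0

theorem cn_nonneg (F : ℝ → ℝ) (u : E n → ℝ) (x : E n) : 0 ≤ cn F u x := le_max_right _ _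

theorem Fn_nonneg (F : ℝ → ℝ) (u : E n → ℝ) (x : E n) : 0 ≤ Fn F u x := le_max_right _ _

theorem Fn_le (F : ℝ → ℝ) (u : E n → ℝ) (x : E n) : Fn F u x ≤ gsq u x / 2 + cn F u x := by
  have h1 := gsq_nonneg u x
  have h2 := cn_nonneg F u x
  refine max_le ?_ (by positivity)
  have h3 : -(cE F u x) ≤ cn F u x := le_max_left _ _
  unfold cE at h3
  linarith

theorem sqrt_Fn_le (F : ℝ → ℝ) (u : E n → ℝ) (x : E n) :
    Real.sqrt (Fn F u x) ≤ gr u x + Real.sqrt (cn F u x) := by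
  have h1 := gr_nonneg u x
  have h2 := Real.sqrt_nonneg (cn F u x)
  rw [Real.sqrt_le_left (by positivity)]
  have h3 := Fn_le F u x
  have h4 := gr_sq u x
  have h5 := Real.sq_sqrt (cn_nonneg F u x)
  nlinarith [gsq_nonneg u x, mul_nonneg h1 h2]

theorem Fn_le' (F : ℝ → ℝ) (u : E n → ℝ) (x : E n) :
    Fn F u x ≤ 2 * (Real.sqrt (Fn F u x) * gr u x) + 2 * cn F u x := by
  have h0 := Fn_nonneg F u x
  have h1 := gr_nonneg u x
  have h2 := cn_nonneg F u x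
  have h3 := Fn_le F u x
  rw [← gr_sq] at h3
  have h4 := Real.sq_sqrt h0
  have h5 := Real.sqrt_nonneg (Fn F u x)
  set a := Real.sqrt (Fn F u x)
  by_cases h6 : a ≤ 2 * gr u x
  · nlinarith
  · nlinarith [mul_nonneg h5 h1, not_le.1 h6]

end H69

end Pool.Agent.H94.Stab
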