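import Pool.Agent.H94.Stab.Calc2

/-!
# Mollification and translation estimates
-/

set_option autoImplicit false

open MeasureTheory Set Filter Topology
open scoped ContDiff

namespace Pool.Agent.H94.Stab.H69

variable {n : ℕ}

/-! ### the kernel -/

/-- the bump function behind `mk` -/
noncomputable def bmp {ρ : ℝ} (h : 0 < ρ) : ContDiffBump (0 : E n) :=
  ⟨ρ / 2, ρ, by linarith, by linarith⟩

theorem mk_eq {ρ : ℝ} (h : 0 < ρ) : (mk ρ : E n → ℝ) = (bmp h).normed volume := by
  unfold mk
  rw [dif_pos h]
  rfl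

theorem mk_nonneg {ρ : ℝ} (y : E n) : 0 ≤ mk ρ y := by
  by_cases h : 0 < ρ
  · rw [mk_eq h]; exact (bmp h).nonneg_normed y
  · unfold mk; rw [dif_neg h]; exact le_rfl

theorem mk_continuous {ρ : ℝ} (h : 0 < ρ) : Continuous (mk ρ : E n → ℝ) := by
  rw [mk_eq h]; exact (bmp h).continuous_normed

theorem mk_compact {ρ : ℝ} (h : 0 < ρ) : HasCompactSupport (mk ρ : E n → ℝ) := by
  rw [mk_eq h]; exact (bmp h).hasCompactSupport_normed

theorem mk_integral {ρ : ℝ} (h : 0 < ρ) : ∫ y, (mk ρ y : ℝ) ∂(volume : Measure (E n)) = 1 := by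
  rw [mk_eq h]; exact (bmp h).integral_normed

theorem mk_integrable {ρ : ℝ} (h : 0 < ρ) : Integrable (mk ρ : E n → ℝ) volume :=
  (mk_continuous h).integrable_of_hasCompactSupport (mk_compact h)

theorem mk_neg {ρ : ℝ} (y : E n) : mk ρ (-y) = mk ρ y := by
  by_cases h : 0 < ρ
  · rw [mk_eq h]; exact (bmp h).normed_neg y
  · unfold mk; rw [dif_neg h]; rfl

theorem mk_zero {ρ : ℝ} {y : E n} (hy : ρ < ‖y‖) : mk ρ y = 0 := by
  by_cases h : 0 < ρ
  · rw [mk_eq h]
    have h1 : Function.support ((bmp h).normed volume : E n → ℝ) = Metric.ball 0 ρ :=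
      (bmp h).support_normed_eq
    by_contra h2
    have h3 : y ∈ Function.support ((bmp h).normed volume : E n → ℝ) := h2
    rw [h1, Metric.mem_ball, dist_zero_right] at h3
    linarith
  · unfold mk; rw [dif_neg h]; rfl

/-- integrability of continuous functions against the kernel -/
theorem mk_mul_integrable {ρ : ℝ} (h : 0 < ρ) {g : E n → ℝ} (hg : Continuous g) :
    Integrable (fun y => mk ρ y * g y) volume :=
  ((mk_continuous h).mul hg).integrable_of_hasCompactSupport (mk_compact h).mul_right

theorem mol_integrable {ρ : ℝ} (h : 0 < ρ) {g : E n → ℝ} (hg : Continuous g) (x : E n) :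
    Integrable (fun y => mk ρ y * g (x - y)) volume :=
  mk_mul_integrable h (hg.comp (continuous_const.sub continuous_id))

theorem mol_mono {ρ : ℝ} (h : 0 < ρ) {g g' : E n → ℝ} (hg : Continuous g) (hg' : Continuous g')
    (hle : ∀ x, g x ≤ g' x) (x : E n) : mol ρ g x ≤ mol ρ g' x := by
  unfold mol
  refine integral_mono (mol_integrable h hg x) (mol_integrable h hg' x) fun y => ?_
  exact mul_le_mul_of_nonneg_left (hle _) (mk_nonneg y)

theorem mol_add {ρ : ℝ} (h : 0 < ρ) {g g' : E n → ℝ} (hg : Continuous g) (hg' : Continuous g')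
    (x : E n) : mol ρ (fun x => g x + g' x) x = mol ρ g x + mol ρ g' x := by
  unfold mol
  rw [← integral_add (mol_integrable h hg x) (mol_integrable h hg' x)]
  congr 1
  ext y
  ring

theorem mol_const {ρ : ℝ} (h : 0 < ρ) (c : ℝ) (x : E n) : mol ρ (fun _ => c) x = c := by
  unfold mol
  rw [integral_mul_const, mk_integral h, one_mul]

/-- Fubini for the kernel -/
theorem mk_fubini {ρ : ℝ} (h : 0 < ρ) {K : Set (E n)} (hK : IsCompact K) {G : E n → E n → ℝ}
    (hG : Continuous (Function.uncurry G)) :
    ∫ x in K, ∫ y, mk ρ y * G x y = ∫ y, mk ρ y * ∫ x in K, G x y := by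
  have hc : Continuous (Function.uncurry fun (x y : E n) => mk ρ y * G x y) :=
    ((mk_continuous h).comp continuous_snd).mul hG
  have hint : Integrable (Function.uncurry fun (x y : E n) => mk ρ y * G x y)
      ((volume.restrict K).prod volume) := by
    have h1 : IntegrableOn (Function.uncurry fun (x y : E n) => mk ρ y * G x y)
        (K ×ˢ Metric.closedBall (0 : E n) ρ) (volume.prod volume) :=
      hc.continuousOn.integrableOn_compact (hK.prod (isCompact_closedBall _ _))
    have h2 : IntegrableOn (Function.uncurry fun (x y : E n) => mk ρ y * G x y)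
        (K ×ˢ (univ : Set (E n))) (volume.prod volume) := by
      refine h1.of_forall_sdiff_eq_zero ?_ ?_
      · exact hK.measurableSet.prod MeasurableSet.univ
      · rintro ⟨x, y⟩ ⟨h3, h4⟩
        simp only [mem_prod, mem_univ, and_true, Metric.mem_closedBall, dist_zero_right,
          not_and, not_le] at h3 h4
        simp only [Function.uncurry_apply_pair]
        rw [mk_zero (h4 h3), zero_mul]
    unfold IntegrableOn at h2
    rwa [← Measure.prod_restrict, Measure.restrict_univ] at h2
  rw [integral_integral_swap hint]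
  refine integral_congr_ae (Eventually.of_forall fun y => ?_)
  exact integral_const_mul _ _

/-- monotonicity of integrals under translation -/
theorem setIntegral_shift_le {K K' : Set (E n)} (hK : IsCompact K) (hK' : IsCompact K')
    {g : E n → ℝ} (hg : Continuous g) (h0 : ∀ x, 0 ≤ g x) (a : E n)
    (hsub : ∀ x ∈ K, x + a ∈ K') : ∫ x in K, g (x + a) ≤ ∫ x in K', g x := by
  rw [← integral_indicator hK.measurableSet, ← integral_indicator hK'.measurableSet]
  rw [← integral_add_right_eq_self (μ := volume) (indicator K' g) a]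
  refine integral_mono_of_nonneg (Eventually.of_forall fun x => ?_) ?_
    (Eventually.of_forall fun x => ?_)
  · exact indicator_nonneg (fun x _ => h0 _) x
  · have h1 : Integrable (indicator K' g) volume :=
      (integrable_indicator_iff hK'.measurableSet).2 (hg.continuousOn.integrableOn_compact hK')
    exact h1.comp_add_right a
  · by_cases hx : x ∈ K
    · simp only [indicator_of_mem hx]
      rw [indicator_of_mem (hsub x hx)]
    · simp only [indicator_of_notMem hx]
      exact indicator_nonneg (fun x _ => h0 _) _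

/-- `∫_K h ≤ ∫_{K'} mol h` -/
theorem le_mol {ρ : ℝ} (h : 0 < ρ) {K K' : Set (E n)} (hK : IsCompact K) (hK' : IsCompact K')
    {g : E n → ℝ} (hg : Continuous g) (h0 : ∀ x, 0 ≤ g x)
    (hsub : ∀ x ∈ K, ∀ y : E n, ‖y‖ ≤ ρ → x + y ∈ K') :
    ∫ x in K, g x ≤ ∫ x in K', mol ρ g x := by
  unfold mol
  rw [mk_fubini h hK' (G := fun x y => g (x - y)) (hg.comp (continuous_fst.sub continuous_snd))]
  have h1 : ∫ x in K, g x = ∫ y : E n, mk ρ y * ∫ x in K, g x := by
    rw [integral_mul_const, mk_integral h, one_mul]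
  rw [h1]
  have hcont : Continuous fun y : E n => ∫ x in K', g (x - y) :=
    continuous_parametric_integral_of_continuous (f := fun (y x : E n) => g (x - y))
      (hg.comp (continuous_snd.sub continuous_fst)) hK'
  refine integral_mono ((mk_integrable h).mul_const _) (mk_mul_integrable h hcont) fun y => ?_
  by_cases hy : ‖y‖ ≤ ρ
  · refine mul_le_mul_of_nonneg_left ?_ (mk_nonneg y)
    have h2 := setIntegral_shift_le hK hK' (g := fun x => g (x - y)) (hg.comp
      (continuous_id.sub continuous_const)) (fun x => h0 _) y (fun x hx => hsub x hx y hy)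
    simpa using h2
  · simp only [mk_zero (not_le.1 hy), zero_mul]
    exact le_rfl

/-- `∫_K mol h ≤ ∫_{K'} h` -/
theorem mol_le {ρ : ℝ} (h : 0 < ρ) {K K' : Set (E n)} (hK : IsCompact K) (hK' : IsCompact K')
    {g : E n → ℝ} (hg : Continuous g) (h0 : ∀ x, 0 ≤ g x)
    (hsub : ∀ x ∈ K, ∀ y : E n, ‖y‖ ≤ ρ → x + y ∈ K') :
    ∫ x in K, mol ρ g x ≤ ∫ x in K', g x := by
  unfold mol
  rw [mk_fubini h hK (G := fun x y => g (x - y)) (hg.comp (continuous_fst.sub continuous_snd))]
  have h1 : ∫ x in K', g x = ∫ y : E n, mk ρ y * ∫ x in K', g x := by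
    rw [integral_mul_const, mk_integral h, one_mul]
  rw [h1]
  have hcont : Continuous fun y : E n => ∫ x in K, g (x - y) :=
    continuous_parametric_integral_of_continuous (f := fun (y x : E n) => g (x - y))
      (hg.comp (continuous_snd.sub continuous_fst)) hK
  refine integral_mono (mk_mul_integrable h hcont) ((mk_integrable h).mul_const _) fun y => ?_
  by_cases hy : ‖y‖ ≤ ρ
  · refine mul_le_mul_of_nonneg_left ?_ (mk_nonneg y)
    have h2 := setIntegral_shift_le hK hK' hg h0 (-y) (fun x hx => hsub x hx (-y) (by simpa using hy))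
    simpa [sub_eq_add_neg] using h2
  · simp only [mk_zero (not_le.1 hy), zero_mul]
    exact le_rfl

/-- directional derivative and gradient -/
theorem abs_fderiv_le (g : E n → ℝ) (x v : E n) : |fderiv ℝ g x v| ≤ ‖v‖ * gr g x := by
  have h1 : fderiv ℝ g x v = ∑ i, v i * pd i g x := by
    conv_lhs => rw [← (EuclideanSpace.basisFun (Fin n) ℝ).sum_repr v]
    rw [map_sum]
    refine Finset.sum_congr rfl fun i _ => ?_
    rw [map_smul]
    simp [pd]
  rw [h1]
  have h2 : (∑ i, v i * pd i g x) ^ 2 ≤ (∑ i, v i ^ 2) * ∑ i, (pd i g x) ^ 2 :=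
    Finset.sum_mul_sq_le_sq_mul_sq _ _ _
  have h3 : ‖v‖ ^ 2 = ∑ i, v i ^ 2 := by
    rw [EuclideanSpace.norm_sq_eq]
    simp
  have h4 : gr g x ^ 2 = ∑ i, (pd i g x) ^ 2 := gr_sq g x
  rw [← h3, ← h4, ← mul_pow] at h2
  exact abs_le_of_sq_le_sq h2 (mul_nonneg (norm_nonneg _) (gr_nonneg _ _))

/-- the `L¹` translation estimate -/
theorem trans_le {K K' : Set (E n)} (hK : IsCompact K) (hK' : IsCompact K') {g : E n → ℝ}
    (hg : ContDiff ℝ 1 g) (y : E n) (hsub : ∀ x ∈ K, ∀ t ∈ Icc (0 : ℝ) 1, x + t • y ∈ K') :
    ∫ x in K, |g (x + y) - g x| ≤ ‖y‖ * ∫ x in K', gr g x := by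
  have hgr : Continuous (gr g) := continuous_gr hg
  have hc : Continuous (Function.uncurry fun (x : E n) (t : ℝ) => gr g (x + t • y)) :=
    hgr.comp (continuous_fst.add (continuous_snd.smul continuous_const))
  -- pointwise bound
  have h1 : ∀ x, |g (x + y) - g x| ≤ ‖y‖ * ∫ t in (0 : ℝ)..1, gr g (x + t • y) := by
    intro x
    have hd : ∀ t : ℝ, HasDerivAt (fun t : ℝ => g (x + t • y)) (fderiv ℝ g (x + t • y) y) t := by
      intro t
      have h2 : HasDerivAt (fun t : ℝ => x + t • y) y t := by
        have := ((hasDerivAt_id t).smul_const y).const_add x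
        simpa using this
      exact ((hg.differentiable (by norm_num)) _).hasFDerivAt.comp_hasDerivAt t h2
    have hcd : Continuous fun t : ℝ => fderiv ℝ g (x + t • y) y :=
      ((hg.continuous_fderiv (by norm_num)).comp
        (continuous_const.add (continuous_id.smul continuous_const))).clm_apply continuous_const
    have h3 := intervalIntegral.integral_eq_sub_of_hasDerivAt (a := 0) (b := 1)
      (fun t _ => hd t) (hcd.intervalIntegrable _ _)
    simp only [one_smul, zero_smul, add_zero] at h3
    rw [← h3, ← intervalIntegral.integral_const_mul, ← Real.norm_eq_abs]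
    refine intervalIntegral.norm_integral_le_of_norm_le (by norm_num)
      (Eventually.of_forall fun t _ => ?_) ?_
    · rw [Real.norm_eq_abs]; exact abs_fderiv_le _ _ _
    · exact ((hgr.comp (continuous_const.add (continuous_id.smul continuous_const))).const_smul
        ‖y‖).intervalIntegrable _ _
  -- integrate
  have hcI : Continuous fun x => ∫ t in (0 : ℝ)..1, gr g (x + t • y) :=
    intervalIntegral.continuous_parametric_intervalIntegral_of_continuous' hc _ _
  have h4 : ∫ x in K, |g (x + y) - g x| ≤ ∫ x in K, ‖y‖ * ∫ t in (0 : ℝ)..1, gr g (x + t • y) := by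
    refine setIntegral_mono ?_ ?_ h1
    · exact ((hg.continuous.comp (continuous_id.add continuous_const)).sub
        hg.continuous).abs.continuousOn.integrableOn_compact hK
    · exact (continuous_const.mul hcI).continuousOn.integrableOn_compact hK
  refine h4.trans ?_
  rw [integral_const_mul]
  refine mul_le_mul_of_nonneg_left ?_ (norm_nonneg _)
  -- swap the integrals
  have h5 : ∫ x in K, ∫ t in (0 : ℝ)..1, gr g (x + t • y) =
      ∫ t in (0 : ℝ)..1, ∫ x in K, gr g (x + t • y) := by
    rw [intervalIntegral.integral_of_le (by norm_num)]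
    simp_rw [intervalIntegral.integral_of_le (show (0 : ℝ) ≤ 1 by norm_num)]
    refine integral_integral_swap ?_
    have h6 : IntegrableOn (Function.uncurry fun (x : E n) (t : ℝ) => gr g (x + t • y))
        (K ×ˢ Icc (0 : ℝ) 1) (volume.prod volume) :=
      hc.continuousOn.integrableOn_compact (hK.prod isCompact_Icc)
    have h7 := h6.mono_set (prod_mono (le_refl K) (Ioc_subset_Icc_self (a := (0 : ℝ)) (b := 1)))
    unfold IntegrableOn at h7
    rwa [← Measure.prod_restrict] at h7
  rw [h5]
  have hcK : Continuous fun t : ℝ => ∫ x in K, gr g (x + t • y) :=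
    continuous_parametric_integral_of_continuous
      (f := fun (t : ℝ) (x : E n) => gr g (x + t • y))
      (hgr.comp (continuous_snd.add (continuous_fst.smul continuous_const))) hK
  have h8 : ∫ t in (0 : ℝ)..1, ∫ x in K, gr g (x + t • y) ≤ ∫ t in (0 : ℝ)..1, ∫ x in K', gr g x := by
    refine intervalIntegral.integral_mono_on (by norm_num) (hcK.intervalIntegrable _ _)
      intervalIntegrable_const fun t ht => ?_
    exact setIntegral_shift_le hK hK' hgr (gr_nonneg g) (t • y) (fun x hx => hsub x hx t ht)
  simpa using h8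

end Pool.Agent.H94.Stab.H69
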